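import Pool.Agent.Work.MP_c4bd3e_lc.Struct

/-!
# Measurability of maximal subfields avoiding `y`
-/

open Set Polynomial Cardinal MeasureTheory IntermediateField

namespace MPc4bd3e

variable {F : Subfield ℝ} {y : ℝ}

theorem ext_ne_top (hF : Maximal (fun K : Subfield ℝ => y ∉ K) F) (x : ℝ) :
    Subfield.closure (insert x (F : Set ℝ)) ≠ ⊤ := by
  intro h
  have halg := isAlgebraic_of_maximal hF
  have h1 : F⟮x⟯ = ⊤ := by
    rw [eq_top_iff]
    intro z _
    have hz : z ∈ Subfield.closure (insert x (F : Set ℝ)) := by rw [h]; trivial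
    rw [closure_insert_eq] at hz
    exact hz
  have hint : IsIntegral F x := (halg.isAlgebraic x).isIntegral
  have h2 : FiniteDimensional F F⟮x⟯ := adjoin.finiteDimensional hint
  rw [h1] at h2
  have h3 : FiniteDimensional F ℝ := FiniteDimensional.of_injective
    (IntermediateField.topEquiv (F := F) (E := ℝ)).symm.toLinearMap
    (IntermediateField.topEquiv (F := F) (E := ℝ)).symm.injective
  have h4 := eq_top_of_finite F
  have h5 : y ∉ F := hF.1
  rw [h4] at h5
  exact h5 trivial

/-- a maximal subfield avoiding `y` has a simple extension in `ℝ` which is not measurable -/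
theorem exists_nonmeasurable_ext (hF : Maximal (fun K : Subfield ℝ => y ∉ K) F) :
    ∃ x : ℝ, ¬ NullMeasurableSet (Subfield.closure (insert x (F : Set ℝ)) : Set ℝ) volume := by
  by_contra hcon
  push Not at hcon
  have halg := isAlgebraic_of_maximal hF
  obtain ⟨σ, hσ⟩ := exists_automorphism hF
  have hnull : ∀ x : ℝ, volume (Subfield.closure (insert x (F : Set ℝ)) : Set ℝ) = 0 := by
    intro x
    by_contra h
    exact ext_ne_top hF x (eq_top_of_measure_pos (hcon x) h)
  let A : (Σ n : ℕ, (Fin n → Fin n) × (Fin n → Fin n) × Fin n) → Set ℝ := fun d =>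
    {x | Code (σ : ℂ ≃+* ℂ) d.1 d.2.1 d.2.2.1 d.2.2.2 x}
  have hA : ∀ d, volume (A d) = 0 := by
    intro d
    by_cases he : (A d).Nonempty
    · obtain ⟨x, hx⟩ := he
      exact measure_mono_null (fun x' hx' => mem_of_code hσ hx hx') (hnull x)
    · rw [not_nonempty_iff_eq_empty.1 he, measure_empty]
  have hU : (⋃ d, A d) = Set.univ := by
    rw [eq_univ_iff_forall]
    intro x
    obtain ⟨n, f, g, k, h⟩ := exists_code σ (halg.isAlgebraic x)
    exact mem_iUnion.2 ⟨⟨n, f, g, k⟩, h⟩
  have h1 : volume (⋃ d, A d) = 0 := measure_iUnion_null hA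
  rw [hU] at h1
  simp at h1

/-- a maximal subfield avoiding `y` is not Borel -/
theorem not_measurableSet (hF : Maximal (fun K : Subfield ℝ => y ∉ K) F) :
    ¬ MeasurableSet (F : Set ℝ) := by
  intro hm
  obtain ⟨x, hx⟩ := exists_nonmeasurable_ext hF
  apply hx
  have halg := isAlgebraic_of_maximal hF
  have hint : IsIntegral F x := (halg.isAlgebraic x).isIntegral
  let pb := adjoin.powerBasis hint
  let D : Set (Fin pb.dim → ℝ) := {c | ∀ i, c i ∈ F}
  let φ : (Fin pb.dim → ℝ) → ℝ := fun c => ∑ i, c i * x ^ (i : ℕ)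
  have hD : MeasurableSet D := by
    have : D = ⋂ i, (fun c : Fin pb.dim → ℝ => c i) ⁻¹' (F : Set ℝ) := by
      ext c
      simp [D]
    rw [this]
    exact MeasurableSet.iInter fun i => hm.preimage (measurable_pi_apply i)
  have hcont : Continuous φ := by
    simp only [φ]
    fun_prop
  have hli := Fintype.linearIndependent_iff.1 pb.basis.linearIndependent
  have hgen : ((pb.gen : F⟮x⟯) : ℝ) = x := by
    simp only [pb, adjoin.powerBasis_gen]
    exact AdjoinSimple.coe_gen F x
  have hinj : InjOn φ D := by
    intro c hc c' hc' h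
    have h1 := hli (fun i => (⟨c i, hc i⟩ : F) - ⟨c' i, hc' i⟩) (by
      apply Subtype.val_injective
      have h2 : ∑ i, (c i - c' i) * x ^ (i : ℕ) = 0 := by
        simp only [sub_mul, Finset.sum_sub_distrib]
        exact sub_eq_zero.2 h
      rw [IntermediateField.coe_sum, IntermediateField.coe_zero, ← h2]
      refine Finset.sum_congr rfl fun i _ => ?_
      rw [IntermediateField.coe_smul, PowerBasis.coe_basis, Algebra.smul_def]
      simp only [IntermediateField.coe_pow, hgen]
      rfl)
    funext i
    have h3 := congrArg Subtype.val (h1 i)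
    exact sub_eq_zero.1 h3
  have himg : φ '' D = (Subfield.closure (insert x (F : Set ℝ)) : Set ℝ) := by
    ext z
    constructor
    · rintro ⟨c, hc, rfl⟩
      exact sum_mem fun i _ => mul_mem (Subfield.subset_closure (mem_insert_of_mem _ (hc i)))
        (pow_mem (Subfield.subset_closure (mem_insert _ _)) _)
    · intro hz
      rw [closure_insert_eq] at hz
      have hz' : z ∈ F⟮x⟯ := hz
      refine ⟨fun i => (pb.basis.repr ⟨z, hz'⟩ i : ℝ), fun i => (pb.basis.repr ⟨z, hz'⟩ i).2, ?_⟩
      have h4 := pb.basis.sum_repr ⟨z, hz'⟩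
      have h5 := congrArg (Subtype.val : F⟮x⟯ → ℝ) h4
      rw [IntermediateField.coe_sum] at h5
      simp only [φ]
      refine Eq.trans (Finset.sum_congr rfl fun i _ => ?_) h5
      rw [IntermediateField.coe_smul, PowerBasis.coe_basis, Algebra.smul_def]
      simp only [IntermediateField.coe_pow, hgen]
      rfl
  rw [← himg]
  exact (hD.image_of_continuousOn_injOn hcont.continuousOn hinj).nullMeasurableSet

end MPc4bd3e
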