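import Pool.Agent.Work.MP_c4bd3e_lc.Capa
import Pool.Agent.Work.MP_c4bd3e_lc.Meas

/-!
# Simple extensions of maximal subfields avoiding `y` of full outer measure
-/

open Set Polynomial MeasureTheory IntermediateField

open scoped Pointwise

namespace MPc4bd3e

variable {F : Subfield ℝ} {y : ℝ}

theorem eq_top_of_subset {F : Subfield ℝ} {E : Set ℝ} (hE : MeasurableSet E)
    (hEF : E ⊆ F) (h : volume E ≠ 0) : F = ⊤ := by
  have h1 := Measure.sub_mem_nhds_zero_of_addHaar_pos volume E hE (pos_iff_ne_zero.2 h)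
  obtain ⟨ε, hε, hball⟩ := Metric.mem_nhds_iff.1 h1
  rw [eq_top_iff]
  intro x _
  obtain ⟨n, hn⟩ := exists_nat_gt (|x| / ε)
  have hn0 : (0 : ℝ) < n := lt_of_le_of_lt (by positivity) hn
  have hmem : x / n ∈ F := by
    have : x / n ∈ E - E := hball (by
      rw [Metric.mem_ball, dist_zero_right, Real.norm_eq_abs, abs_div, Nat.abs_cast]
      rw [div_lt_iff₀ hn0]
      rw [div_lt_iff₀ hε] at hn
      linarith)
    obtain ⟨a, ha, b, hb, hab⟩ := Set.mem_sub.1 this
    rw [← hab]
    exact sub_mem (hEF ha) (hEF hb)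
  have : x = (n : ℝ) * (x / n) := by field_simp
  rw [this]
  exact mul_mem (natCast_mem F n) hmem

/-- a rational translate of `E` meets `C` -/
theorem exists_rat_inter {C E : Set ℝ} (hC : MeasurableSet C) (hE : MeasurableSet E)
    (hC0 : volume C ≠ 0) (hE0 : volume E ≠ 0) : ∃ q : ℚ, ∃ a ∈ C, a - q ∈ E := by
  have hmeas : ∀ t : ℝ, MeasurableSet (C ∩ {x | x - t ∈ E}) := fun t =>
    hC.inter (hE.preimage (measurable_id.sub_const t))
  have h1 : ∃ t : ℝ, volume (C ∩ {x | x - t ∈ E}) ≠ 0 := by
    by_contra hcon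
    push Not at hcon
    have h2 : ∫⁻ t : ℝ, volume (C ∩ {x | x - t ∈ E}) = 0 := by
      simp only [hcon, lintegral_zero]
    have h3 : ∀ t : ℝ, volume (C ∩ {x | x - t ∈ E}) =
        ∫⁻ x : ℝ, C.indicator 1 x * E.indicator 1 (x - t) := by
      intro t
      rw [← lintegral_indicator_one (hmeas t)]
      refine lintegral_congr fun x => ?_
      by_cases hx : x ∈ C <;> by_cases hx' : x - t ∈ E <;>
        simp [Set.indicator, hx, hx']
    simp only [h3] at h2
    rw [lintegral_lintegral_swap] at h2
    · have h4 : ∀ x : ℝ, ∫⁻ t : ℝ, C.indicator 1 x * E.indicator 1 (x - t) =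
          C.indicator 1 x * volume E := by
        intro x
        rw [lintegral_const_mul]
        · congr 1
          rw [lintegral_sub_left_eq_self (fun t => E.indicator (1 : ℝ → ENNReal) t) x]
          exact lintegral_indicator_one hE
        · exact (measurable_one.indicator hE).comp (measurable_const.sub measurable_id)
      simp only [h4] at h2
      rw [lintegral_mul_const _ (measurable_one.indicator hC), lintegral_indicator_one hC] at h2
      rcases mul_eq_zero.1 h2 with h | h
      · exact hC0 h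
      · exact hE0 h
    · refine Measurable.aemeasurable ?_
      exact ((measurable_one.indicator hC).comp measurable_snd).mul
        ((measurable_one.indicator hE).comp (measurable_snd.sub measurable_fst))
  obtain ⟨t, ht⟩ := h1
  have h2 := Measure.sub_mem_nhds_zero_of_addHaar_pos volume _ (hmeas t) (pos_iff_ne_zero.2 ht)
  obtain ⟨ε, hε, hball⟩ := Metric.mem_nhds_iff.1 h2
  obtain ⟨q, hq1, hq2⟩ := exists_rat_btwn (show t < t + ε by linarith)
  have h3 : (q : ℝ) - t ∈ Metric.ball (0 : ℝ) ε := by
    rw [Metric.mem_ball, dist_zero_right, Real.norm_eq_abs, abs_lt]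
    constructor <;> linarith
  obtain ⟨a, ha, b, hb, hab⟩ := Set.mem_sub.1 (hball h3)
  refine ⟨q, a, ha.1, ?_⟩
  have h4 : a - q = b - t := by linarith
  rw [h4]
  exact hb.2

/-- a subfield of positive outer measure meets every set of positive measure -/
theorem inter_nonempty {H : Subfield ℝ} (hH : volume (H : Set ℝ) ≠ 0) {E : Set ℝ}
    (hE : MeasurableSet E) (hE0 : volume E ≠ 0) : (E ∩ H).Nonempty := by
  by_contra hcon
  rw [not_nonempty_iff_eq_empty] at hcon
  let C : Set ℝ := (⋃ q : ℚ, {x : ℝ | x - q ∈ E})ᶜ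
  have hC : MeasurableSet C :=
    (MeasurableSet.iUnion fun q => hE.preimage (measurable_id.sub_const _)).compl
  have hHC : (H : Set ℝ) ⊆ C := by
    intro x hx hx'
    obtain ⟨q, hq⟩ := mem_iUnion.1 hx'
    have hqH : (q : ℝ) ∈ H := by
      have := SubfieldClass.ratCast_mem H q
      exact this
    have h1 : x - q ∈ E ∩ H := ⟨hq, sub_mem hx hqH⟩
    rw [hcon] at h1
    exact h1
  have hC0 : volume C ≠ 0 := fun h => hH (measure_mono_null hHC h)
  obtain ⟨q, a, haC, haE⟩ := exists_rat_inter hC hE hC0 hE0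
  exact haC (mem_iUnion.2 ⟨q, haE⟩)

/-- some simple extension of `F` has positive outer measure -/
theorem exists_ext_pos (hF : Maximal (fun K : Subfield ℝ => y ∉ K) F) :
    ∃ x : ℝ, volume (Subfield.closure (insert x (F : Set ℝ)) : Set ℝ) ≠ 0 := by
  obtain ⟨x, hx⟩ := exists_nonmeasurable_ext hF
  exact ⟨x, fun h => hx (NullMeasurableSet.of_null h)⟩

theorem not_analyticSet (hF : Maximal (fun K : Subfield ℝ => y ∉ K) F) :
    ¬ AnalyticSet (F : Set ℝ) := by
  intro hA
  obtain ⟨x, hx⟩ := exists_ext_pos hF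
  have halg := isAlgebraic_of_maximal hF
  have hint : IsIntegral F x := (halg.isAlgebraic x).isIntegral
  -- the extension is a continuous image of a power of `F`
  have hK : AnalyticSet (Subfield.closure (insert x (F : Set ℝ)) : Set ℝ) := by
    obtain ⟨d, hd⟩ : ∃ d : ℕ, ∀ z ∈ F⟮x⟯, ∃ c : Fin d → ℝ, (∀ i, c i ∈ F) ∧
        z = ∑ i, c i * x ^ (i : ℕ) := by
      let pb := adjoin.powerBasis hint
      have hgen : ((pb.gen : F⟮x⟯) : ℝ) = x := by
        simp only [pb, adjoin.powerBasis_gen]
        exact AdjoinSimple.coe_gen F x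
      refine ⟨pb.dim, fun z hz' => ⟨fun i => (pb.basis.repr ⟨z, hz'⟩ i : ℝ),
        fun i => (pb.basis.repr ⟨z, hz'⟩ i).2, ?_⟩⟩
      have h4 := pb.basis.sum_repr ⟨z, hz'⟩
      have h5 := congrArg (Subtype.val : F⟮x⟯ → ℝ) h4
      rw [IntermediateField.coe_sum] at h5
      refine (Eq.trans (Finset.sum_congr rfl fun i _ => ?_) h5).symm
      rw [IntermediateField.coe_smul, PowerBasis.coe_basis, Algebra.smul_def]
      simp only [IntermediateField.coe_pow, hgen]
      rfl
    have himg : (Subfield.closure (insert x (F : Set ℝ)) : Set ℝ) =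
        (fun c : Fin d → ℝ => ∑ i, c i * x ^ (i : ℕ)) '' {c | ∀ i, c i ∈ F} := by
      ext z
      constructor
      · intro hz
        rw [closure_insert_eq] at hz
        obtain ⟨c, hc, hcz⟩ := hd z hz
        exact ⟨c, hc, hcz.symm⟩
      · rintro ⟨c, hc, rfl⟩
        exact sum_mem fun i _ => mul_mem (Subfield.subset_closure (mem_insert_of_mem _ (hc i)))
          (pow_mem (Subfield.subset_closure (mem_insert _ _)) _)
    have hpow : AnalyticSet {c : Fin d → ℝ | ∀ i, c i ∈ F} := by
      rw [analyticSet_iff_exists_polishSpace_range] at hA ⊢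
      obtain ⟨β, hβ, hβ', f, hf, hr⟩ := hA
      refine ⟨Fin d → β, inferInstance, inferInstance, fun b i => f (b i), ?_, ?_⟩
      · exact continuous_pi fun i => hf.comp (continuous_apply i)
      · ext c
        constructor
        · rintro ⟨b, rfl⟩ i
          show f (b i) ∈ (F : Set ℝ)
          rw [← hr]
          exact mem_range_self _
        · intro hc
          have h1 : ∀ i, ∃ b, f b = c i := by
            intro i
            have : c i ∈ (F : Set ℝ) := hc i
            rw [← hr] at this
            exact this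
          choose b hb using h1
          exact ⟨b, funext hb⟩
    rw [himg]
    refine hpow.image_of_continuous ?_
    fun_prop
  obtain ⟨K, hKsub, hKc, hK0⟩ := exists_compact_of_analytic hK hx
  exact ext_ne_top hF x (eq_top_of_subset hKc.measurableSet hKsub hK0)

end MPc4bd3e
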