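import Pool.Agent.Work.MP_c4bd3e_lc.Meas

/-!
# The line is a countable union of finite extensions of a maximal subfield avoiding `y`
-/

open Set Polynomial Cardinal MeasureTheory IntermediateField

namespace MPc4bd3e

variable {F : Subfield ℝ} {y : ℝ}

/-- `ℝ` is covered by countably many sets `A n`, each of which lies in `F(x)` for each of its
points `x` -/
theorem exists_countable_cover (hF : Maximal (fun K : Subfield ℝ => y ∉ K) F) :
    ∃ A : ℕ → Set ℝ, (⋃ n, A n) = Set.univ ∧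
      ∀ n, ∀ x ∈ A n, A n ⊆ (Subfield.closure (insert x (F : Set ℝ)) : Set ℝ) := by
  have halg := isAlgebraic_of_maximal hF
  obtain ⟨σ, hσ⟩ := exists_automorphism hF
  let I := (Σ n : ℕ, (Fin n → Fin n) × (Fin n → Fin n) × Fin n)
  haveI : Nonempty I := ⟨⟨1, id, id, 0⟩⟩
  obtain ⟨φ, hφ⟩ := exists_surjective_nat I
  let A : I → Set ℝ := fun d =>
    {x | Code (σ : ℂ ≃+* ℂ) d.1 d.2.1 d.2.2.1 d.2.2.2 x}
  refine ⟨fun n => A (φ n), ?_, ?_⟩
  · rw [eq_univ_iff_forall]
    intro x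
    obtain ⟨n, f, g, k, h⟩ := exists_code σ (halg.isAlgebraic x)
    obtain ⟨m, hm⟩ := hφ ⟨n, f, g, k⟩
    refine mem_iUnion.2 ⟨m, ?_⟩
    rw [hm]
    exact h
  · intro n x hx x' hx'
    exact mem_of_code hσ hx hx'

/-- `ℝ` is a countable union of simple (finite) extensions of `F` -/
theorem exists_countable_ext (hF : Maximal (fun K : Subfield ℝ => y ∉ K) F) :
    ∃ x : ℕ → ℝ, ∀ z : ℝ, ∃ n, z ∈ Subfield.closure (insert (x n) (F : Set ℝ)) := by
  classical
  obtain ⟨A, hA, hA'⟩ := exists_countable_cover hF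
  refine ⟨fun n => if h : (A n).Nonempty then h.some else 0, fun z => ?_⟩
  obtain ⟨n, hn⟩ := mem_iUnion.1 (hA.symm ▸ mem_univ z : z ∈ ⋃ n, A n)
  have h : (A n).Nonempty := ⟨z, hn⟩
  refine ⟨n, ?_⟩
  simp only [dif_pos h]
  exact hA' n _ h.some_mem hn

end MPc4bd3e
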