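import Pool.Agent.Work.MP_c4bd3e_lc.Cond

/-!
# Non-measurable maximal subfields avoiding `y` (in ZFC)
-/

open Set Polynomial Cardinal MeasureTheory Topology

open scoped Pointwise

namespace MPc4bd3e

theorem mk_cl_lt {S : Set ℝ} (h : #S < 𝔠) : #(cl S) < 𝔠 :=
  (mk_cl_le S).trans_lt (max_lt h aleph0_lt_continuum)

theorem continuum_le_mk_of_isClosed {C : Set ℝ} (hC : IsClosed C) (h : ¬ C.Countable) :
    𝔠 ≤ #C := by
  obtain ⟨f, hf, -, hinj⟩ := hC.exists_nat_bool_injection_of_not_countable h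
  have h1 : #(ℕ → Bool) ≤ #C :=
    mk_le_of_injective (f := fun b => (⟨f b, hf (mem_range_self b)⟩ : C))
      (fun a b hab => hinj (congrArg Subtype.val hab))
  have h2 : #(ℕ → Bool) = 𝔠 := by simp
  rwa [h2] at h1

/-- every closed set of reals occurs in this enumeration -/
def closedOf (W : Set (ℚ × ℚ)) : Set ℝ := (⋃ p ∈ W, Ioo (p.1 : ℝ) p.2)ᶜ

theorem isClosed_closedOf (W : Set (ℚ × ℚ)) : IsClosed (closedOf W) := by
  unfold closedOf
  rw [isClosed_compl_iff]
  exact isOpen_biUnion fun _ _ => isOpen_Ioo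

theorem exists_closedOf {C : Set ℝ} (hC : IsClosed C) : ∃ W, closedOf W = C := by
  refine ⟨{p | Ioo (p.1 : ℝ) p.2 ⊆ Cᶜ}, ?_⟩
  unfold closedOf
  rw [compl_eq_comm]
  ext x
  constructor
  · intro hx
    obtain ⟨ε, hε, hball⟩ := Metric.isOpen_iff.1 hC.isOpen_compl x hx
    obtain ⟨a, ha1, ha2⟩ := exists_rat_btwn (show x - ε < x by linarith)
    obtain ⟨b, hb1, hb2⟩ := exists_rat_btwn (show x < x + ε by linarith)
    rw [mem_iUnion₂]
    refine ⟨(a, b), ?_, ha2, hb1⟩
    intro z hz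
    apply hball
    rw [Metric.mem_ball, Real.dist_eq, abs_lt]
    constructor <;> simp only at hz <;> linarith [hz.1, hz.2]
  · intro hx
    rw [mem_iUnion₂] at hx
    obtain ⟨p, hp, hx⟩ := hx
    exact hp hx

theorem exists_enum : ∃ C : ℝ → Set ℝ, (∀ x, IsClosed (C x)) ∧ ∀ K, IsClosed K → ∃ x, C x = K := by
  have h : #ℝ = #(Set (ℚ × ℚ)) := by
    rw [Cardinal.mk_real, Cardinal.mk_set]
    have : #(ℚ × ℚ) = ℵ₀ := by simp
    rw [this, two_power_aleph0]
  obtain ⟨e⟩ := Cardinal.eq.1 h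
  refine ⟨fun x => closedOf (e x), fun x => isClosed_closedOf _, fun K hK => ?_⟩
  obtain ⟨W, hW⟩ := exists_closedOf hK
  exact ⟨e.symm W, by simp [hW]⟩

open Classical in
/-- choose a point of `C x` transcendental over `A` -/
noncomputable def stepN (C : ℝ → Set ℝ) (A : Set ℝ) (x : ℝ) : Set ℝ :=
  if h : ∃ p, p ∈ C x ∧ p ∉ cl A then {h.choose} else ∅

theorem stepN_cases (C : ℝ → Set ℝ) (A : Set ℝ) (x : ℝ) :
    (stepN C A x = ∅ ∧ ¬ ∃ p, p ∈ C x ∧ p ∉ cl A) ∨
      ∃ p, p ∈ C x ∧ p ∉ cl A ∧ stepN C A x = {p} := by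
  unfold stepN
  split_ifs with h
  · right
    exact ⟨h.choose, h.choose_spec.1, h.choose_spec.2, rfl⟩
  · left; exact ⟨rfl, h⟩

/-- a maximal subfield avoiding `y` that meets every uncountable closed set -/
theorem exists_maximal_bernstein {y : ℝ} {S0 : Set ℝ} (hS0 : S0.Countable) (hyS0 : y ∈ cl S0)
    (hy : y ∉ Subfield.closure S0) :
    ∃ F : Subfield ℝ, Maximal (fun K : Subfield ℝ => y ∉ K) F ∧
      ∀ K : Set ℝ, IsClosed K → ¬ K.Countable → (K ∩ F).Nonempty := by
  obtain ⟨C, -, hC⟩ := exists_enum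
  obtain ⟨r, A, hr, hcard, hS0A, hmono, hcl, hyU, -, -⟩ := exists_tower aleph0_lt_continuum ℝ
    (Cardinal.mk_real).le S0 hS0 (stepN C)
    (by
      intro A x
      rcases stepN_cases C A x with ⟨h, -⟩ | ⟨p, -, -, h⟩
      · rw [h]; exact countable_empty
      · rw [h]; exact countable_singleton _)
    hy (by
      intro B x hB _ hyB
      rcases stepN_cases C B x with ⟨h, -⟩ | ⟨p, -, hp, h⟩
      · rwa [h, union_empty]
      · rw [h, union_singleton]
        exact notMem_closure_insert (cl_mono hB hyS0) hyB hp)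
  obtain ⟨F, hUF, hF⟩ := exists_maximal (le_top (a := _)) hyU
  refine ⟨F, ?_, ?_⟩
  · simpa using hF
  intro K hK hKc
  obtain ⟨x, hx⟩ := hC K hK
  rcases stepN_cases C (A x) x with ⟨-, h⟩ | ⟨p, hp, -, h⟩
  · exfalso
    apply h
    by_contra hcon
    push Not at hcon
    have h1 : K ⊆ cl (A x) := by
      intro p hp
      exact hcon p (hx ▸ hp)
    have h2 := (continuum_le_mk_of_isClosed hK hKc).trans (mk_le_mk_of_subset h1)
    exact absurd (mk_cl_lt (hcard x)) (not_lt.2 h2)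
  · refine ⟨p, hx ▸ hp, ?_⟩
    refine hUF (Subfield.subset_closure (mem_iUnion_of_mem x (Or.inr ?_)))
    rw [h]; rfl

theorem eq_top_of_measure_pos {F : Subfield ℝ} (hF : NullMeasurableSet (F : Set ℝ) volume)
    (h : volume (F : Set ℝ) ≠ 0) : F = ⊤ := by
  obtain ⟨E, hEF, hE, hEae⟩ := hF.exists_measurable_subset_ae_eq
  have hpos : 0 < volume E := by
    rw [measure_congr hEae]
    exact pos_iff_ne_zero.2 h
  have h1 := Measure.sub_mem_nhds_zero_of_addHaar_pos volume E hE hpos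
  obtain ⟨ε, hε, hball⟩ := Metric.mem_nhds_iff.1 h1
  rw [eq_top_iff]
  intro x _
  obtain ⟨n, hn⟩ := exists_nat_gt (|x| / ε)
  have hn0 : (0 : ℝ) < n := lt_of_le_of_lt (by positivity) hn
  have hmem : x / n ∈ F := by
    have : x / n ∈ E - E := hball (by
      rw [Metric.mem_ball, dist_zero_right, Real.norm_eq_abs, abs_div, Nat.abs_cast]
      rw [div_lt_iff₀ hn0]
      rw [div_lt_iff₀ hε] at hn
      linarith)
    obtain ⟨a, ha, b, hb, hab⟩ := Set.mem_sub.1 this
    rw [← hab]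
    exact sub_mem (hEF ha) (hEF hb)
  have : x = (n : ℝ) * (x / n) := by field_simp
  rw [this]
  exact mul_mem (natCast_mem F n) hmem

theorem not_nullMeasurable_of_bernstein {F : Subfield ℝ} (hF : F ≠ ⊤)
    (h : ∀ K : Set ℝ, IsClosed K → ¬ K.Countable → (K ∩ F).Nonempty) :
    ¬ NullMeasurableSet (F : Set ℝ) volume := by
  intro hm
  by_cases h0 : volume (F : Set ℝ) = 0
  · -- the complement contains a compact set of positive measure
    obtain ⟨E, hEF, hE, hEae⟩ := hm.compl.exists_measurable_subset_ae_eq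
    have hc : volume ((F : Set ℝ)ᶜ) ≠ 0 := by
      intro hc
      have := measure_union_le (μ := volume) (F : Set ℝ) (F : Set ℝ)ᶜ
      rw [union_compl_self, h0, hc, add_zero, nonpos_iff_eq_zero] at this
      simp at this
    have hpos : 0 < volume E := by
      rw [measure_congr hEae]
      exact pos_iff_ne_zero.2 hc
    obtain ⟨K, hKE, hK, hKpos⟩ := hE.exists_lt_isCompact hpos
    obtain ⟨z, hzK, hzF⟩ := h K hK.isClosed (fun hcount => by
      rw [hcount.measure_zero] at hKpos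
      exact lt_irrefl _ hKpos)
    exact hEF (hKE hzK) hzF
  · exact hF (eq_top_of_measure_pos hm h0)

end MPc4bd3e
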