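import Pool.Agent.Work.MP_c4bd3e_lc.Cond

/-!
# Starting sets and the null comeagre set
-/

open Set Polynomial Cardinal MeasureTheory

namespace MPc4bd3e

theorem notMem_closure_sq {y : ℝ} (hy : y ∉ cl ∅) : y ∉ Subfield.closure {y ^ 2} := by
  intro h
  have hle : Subfield.closure {y ^ 2} ≤ (IntermediateField.adjoin ℚ {y ^ 2}).toSubfield := by
    rw [Subfield.closure_le]
    rintro z rfl
    exact IntermediateField.mem_adjoin_simple_self _ _
  have h1 := hle h
  rw [IntermediateField.mem_toSubfield, IntermediateField.mem_adjoin_simple_iff] at h1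
  obtain ⟨r, s, hrs⟩ := h1
  have hy0 : y ≠ 0 := by
    rintro rfl
    exact hy (by rw [← mem_clF]; exact zero_mem _)
  by_cases hs : aeval (y ^ 2) s = 0
  · rw [hs, div_zero] at hrs
    exact hy0 hrs
  let P : ℚ[X] := X * expand ℚ 2 s - expand ℚ 2 r
  have hP : aeval y P = 0 := by
    simp only [P, map_sub, map_mul, aeval_X, expand_aeval]
    have : y * aeval (y ^ 2) s = aeval (y ^ 2) r := by
      nth_rewrite 1 [hrs]; field_simp
    rw [this, sub_self]
  have hP0 : P = 0 := by
    by_contra hne
    apply hy
    refine mem_cl_of_root (P := P.map (algebraMap ℚ ℝ)) ?_ ?_ ?_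
    · rwa [Ne, Polynomial.map_eq_zero]
    · intro n
      rw [coeff_map]
      exact algebraMap_mem_cl _ _
    · rw [eval_map_algebraMap, hP]
  have hs0 : s = 0 := by
    ext n
    have h2 : P.coeff (2 * n + 1) = s.coeff n := by
      simp only [P, coeff_sub]
      rw [coeff_X_mul, coeff_expand (by norm_num), coeff_expand (by norm_num)]
      rw [if_pos (Dvd.intro n rfl), if_neg (by omega), sub_zero]
      congr 1
      omega
    rw [← h2, hP0, coeff_zero, coeff_zero]
  exact hs (by rw [hs0, map_zero])

theorem exists_start {y : ℝ} (hy : Irrational y) : ∃ S0 : Set ℝ, S0.Countable ∧ y ∈ cl S0 ∧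
    y ∉ Subfield.closure S0 ∧ S0 ⊆ cl {y} := by
  by_cases halg : y ∈ cl ∅
  · refine ⟨∅, countable_empty, halg, ?_, empty_subset _⟩
    rw [Subfield.closure_empty, Subfield.bot_eq_of_charZero]
    rintro ⟨q, hq⟩
    exact hy ⟨q, hq⟩
  · refine ⟨{y ^ 2}, countable_singleton _, ?_, notMem_closure_sq halg, ?_⟩
    · refine mem_cl_of_root (P := X ^ 2 - C (y ^ 2)) (X_pow_sub_C_ne_zero (by norm_num) _) ?_ ?_
      · intro n
        rw [coeff_sub, coeff_X_pow, coeff_C, ← mem_clF]
        apply sub_mem
        · split_ifs
          · exact one_mem _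
          · exact zero_mem _
        · split_ifs
          · exact subset_cl _ rfl
          · exact zero_mem _
      · simp
    · rintro z rfl
      rw [← mem_clF]
      exact pow_mem (subset_cl {y} rfl) 2

theorem countable_cl {S : Set ℝ} (h : S.Countable) : (cl S).Countable := by
  have := (mk_cl_le S).trans (max_le h.le_aleph0 le_rfl)
  rwa [Cardinal.le_aleph0_iff_set_countable] at this

/-- Liouville numbers and numbers algebraic over `ℚ(y)` -/
theorem isMeagre_null_set (y : ℝ) :
    IsMeagre ({x : ℝ | Liouville x} ∪ cl {y})ᶜ ∧ volume ({x : ℝ | Liouville x} ∪ cl {y}) = 0 := by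
  constructor
  · have h : {x : ℝ | Liouville x} ∈ residual ℝ := eventually_residual_liouville
    rw [IsMeagre, compl_compl]
    exact Filter.mem_of_superset h subset_union_left
  · rw [measure_union_null_iff]
    exact ⟨volume_setOfPred_liouville, (countable_cl (countable_singleton y)).measure_zero _⟩

theorem notCovered_max {X : Set ℝ} (hX : #X ≤ ℵ₁ ∨ NotCovered #X) : NotCovered (max #X ℵ₁) := by
  intro ι B hι hB
  by_cases h : #ι < ℵ₁
  · have : Countable ι := by
      rw [← Order.succ_le_iff] at h
      have h2 : #ι ≤ ℵ₀ := by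
        rw [← succ_aleph0] at h
        exact Order.succ_le_succ_iff.1 h
      exact mk_le_aleph0_iff.1 h2
    intro hu
    have h3 := isMeagre_iUnion hB
    rw [hu] at h3
    exact not_isMeagre_of_isOpen isOpen_univ univ_nonempty h3
  · have h1 : #ι < #X := by
      rcases lt_max_iff.1 hι with h' | h'
      · exact h'
      · exact absurd h' h
    rcases hX with hX | hX
    · exact absurd (h1.trans_le hX) h
    · exact hX ι B h1 hB

end MPc4bd3e
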