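import Mathlib

/-!
# `ℝ` is not a finite extension of a proper subfield (Artin-Schreier)
-/

open Polynomial IntermediateField

namespace MPc4bd3e

theorem primitiveRoots_nonempty {K : Type} [Field K] [Algebra K ℂ] [FiniteDimensional K ℂ]
    {p : ℕ} (hp : p.Prime) (hfin : Module.finrank K ℂ = p) : (primitiveRoots p K).Nonempty := by
  have hζ := Complex.isPrimitiveRoot_exp p hp.ne_zero
  set ζ : ℂ := Complex.exp (2 * Real.pi * Complex.I / p) with hζdef
  have hint : IsIntegral K ζ := Algebra.IsIntegral.isIntegral ζ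
  have h1 : (minpoly K ζ).natDegree ∣ p := by
    rw [← IntermediateField.adjoin.finrank hint, ← hfin]
    exact Dvd.intro _ (Module.finrank_mul_finrank K K⟮ζ⟯ ℂ)
  have h2 : (minpoly K ζ).natDegree ≤ p - 1 := by
    have hdvd : minpoly K ζ ∣ cyclotomic p K := by
      apply minpoly.dvd
      rw [aeval_def, ← eval_map, map_cyclotomic, ← IsRoot.def]
      have : NeZero ((p : ℕ) : ℂ) := ⟨by exact_mod_cast hp.ne_zero⟩
      rwa [isRoot_cyclotomic_iff]
    have h3 := natDegree_le_of_dvd hdvd (cyclotomic_ne_zero p K)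
    rwa [natDegree_cyclotomic, Nat.totient_prime hp] at h3
  have h3 : (minpoly K ζ).natDegree = 1 := by
    rcases (Nat.dvd_prime hp).1 h1 with h | h
    · exact h
    · have := hp.pos
      omega
  rw [minpoly.natDegree_eq_one_iff] at h3
  obtain ⟨z, hz⟩ := h3
  refine ⟨z, ?_⟩
  rw [mem_primitiveRoots hp.pos]
  rw [← hz] at hζ
  exact hζ.of_map_of_injective (algebraMap K ℂ).injective

theorem no_prime_degree {K : Type} [Field K] [Algebra K ℂ] [FiniteDimensional K ℂ]
    [IsGalois K ℂ] {p : ℕ} (hp : p.Prime) (hfin : Module.finrank K ℂ = p) (j : K)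
    (hj : j ^ 2 = -1) : False := by
  have hprim := primitiveRoots_nonempty hp hfin
  have : Fact p.Prime := ⟨hp⟩
  have : IsCyclic Gal(ℂ/K) := by
    apply isCyclic_of_prime_card (p := p)
    rw [IsGalois.card_aut_eq_finrank, hfin]
  obtain ⟨α, ⟨a, ha⟩, hα⟩ := exists_root_adjoin_eq_top_of_isCyclic K ℂ (hfin ▸ hprim)
  have hirr : Irreducible (X ^ p - C a) := by
    rw [← hfin]
    exact irreducible_X_pow_sub_C_of_root_adjoin_eq_top ha.symm hα
  rw [hfin] at ha
  by_cases h2 : p = 2
  · subst h2
    -- `α ∉ K`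
    have hαK : α ∉ (algebraMap K ℂ).range := by
      rintro ⟨b, hb⟩
      have h1 : (b ^ 2 : K) ≠ a := pow_ne_of_irreducible_X_pow_sub_C hirr (dvd_refl 2) (by norm_num) b
      apply h1
      apply (algebraMap K ℂ).injective
      rw [map_pow, hb, ha]
    obtain ⟨β, hβ⟩ := IsAlgClosed.exists_pow_nat_eq α (n := 2) (by norm_num)
    have hβmem : β ∈ K⟮α⟯ := by rw [hα]; trivial
    have hαint : IsIntegral K α := Algebra.IsIntegral.isIntegral α
    obtain ⟨q, hq⟩ : ∃ q : K[X], β = aeval α q := by
      rw [← IntermediateField.mem_toSubalgebra,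
        IntermediateField.adjoin_simple_toSubalgebra_of_isAlgebraic hαint.isAlgebraic,
        Algebra.adjoin_singleton_eq_range_aeval] at hβmem
      obtain ⟨q, hq⟩ := hβmem
      exact ⟨q, hq.symm⟩
    have hmon : (X ^ 2 - C a : K[X]).Monic := monic_X_pow_sub_C a (by norm_num)
    have hroot : aeval α (X ^ 2 - C a : K[X]) = 0 := by
      rw [map_sub, map_pow, aeval_X, aeval_C, ha, sub_self]
    have hq2 : β = aeval α (q %ₘ (X ^ 2 - C a)) := by
      rw [hq, aeval_modByMonic_eq_self_of_root hroot]
    have hdeg : (q %ₘ (X ^ 2 - C a)).natDegree ≤ 1 := by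
      have h1 := natDegree_modByMonic_lt q hmon (by
        intro h
        have := congrArg natDegree h
        rw [natDegree_X_pow_sub_C, natDegree_one] at this
        omega)
      rw [natDegree_X_pow_sub_C] at h1
      omega
    obtain ⟨v, u, huv⟩ := exists_eq_X_add_C_of_natDegree_le_one hdeg
    rw [huv, map_add, map_mul, aeval_C, aeval_X, aeval_C] at hq2
    have hsq : (algebraMap K ℂ) (u ^ 2 + v ^ 2 * a) + (algebraMap K ℂ) (2 * u * v - 1) * α = 0 := by
      have h1 : β ^ 2 = α := hβ
      rw [hq2] at h1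
      simp only [map_add, map_sub, map_mul, map_pow, map_one, map_ofNat]
      linear_combination h1 + (algebraMap K ℂ v) ^ 2 * ha
    have h0 : 2 * u * v - 1 = 0 := by
      by_contra hne
      apply hαK
      refine ⟨-(u ^ 2 + v ^ 2 * a) / (2 * u * v - 1), ?_⟩
      have h1 : (algebraMap K ℂ) (2 * u * v - 1) ≠ 0 := by
        rwa [Ne, map_eq_zero]
      rw [map_div₀, map_neg, div_eq_iff h1]
      linear_combination -hsq
    rw [h0, map_zero, zero_mul, add_zero, map_eq_zero] at hsq
    have hv : v ≠ 0 := by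
      rintro rfl
      simp at h0
    have h1 : ((j * u / v) ^ 2 : K) ≠ a :=
      pow_ne_of_irreducible_X_pow_sub_C hirr (dvd_refl 2) (by norm_num) _
    apply h1
    field_simp
    linear_combination u ^ 2 * hj - hsq
  · -- odd `p`: `X ^ (p ^ 2) - a` would be irreducible
    have hnp : ∀ b : K, b ^ p ≠ a := fun b =>
      pow_ne_of_irreducible_X_pow_sub_C hirr (dvd_refl p) hp.ne_one b
    have hirr2 : Irreducible (X ^ (p ^ 2) - C a : K[X]) :=
      X_pow_sub_C_irreducible_of_prime_pow hp h2 2 hnp
    have hpp : 0 < p ^ 2 := pow_pos hp.pos 2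
    obtain ⟨γ, hγ⟩ := IsAlgClosed.exists_pow_nat_eq (algebraMap K ℂ a) hpp
    have hmin : minpoly K γ = X ^ (p ^ 2) - C a := by
      symm
      apply minpoly.eq_of_irreducible_of_monic hirr2
      · rw [map_sub, map_pow, aeval_X, aeval_C, hγ, sub_self]
      · exact monic_X_pow_sub_C a hpp.ne'
    have hle := minpoly.natDegree_le (A := K) γ
    rw [hmin, natDegree_X_pow_sub_C, hfin] at hle
    have := hp.two_le
    nlinarith

/-- `ℝ` is not finite over a proper subfield. -/
theorem eq_top_of_finite (F : Subfield ℝ) [FiniteDimensional F ℝ] : F = ⊤ := by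
  have hfC : FiniteDimensional F ℂ := FiniteDimensional.trans F ℝ ℂ
  have hac : IsAlgClosure F ℂ := ⟨inferInstance, inferInstance⟩
  have hgal : IsGalois F ℂ := IsGalois.mk
  let L : IntermediateField F ℂ := F⟮Complex.I⟯
  have hI : Complex.I ∈ L := mem_adjoin_simple_self F Complex.I
  have hgalL : IsGalois L ℂ := IsGalois.tower_top_intermediateField L
  have hfinL : FiniteDimensional L ℂ := FiniteDimensional.right F L ℂ
  by_cases hn : Module.finrank L ℂ = 1
  · -- `[ℂ : F] ≤ 2`
    have h1 : Module.finrank F L ≤ 2 := by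
      have hint : IsIntegral F Complex.I := Algebra.IsIntegral.isIntegral _
      change Module.finrank F F⟮Complex.I⟯ ≤ 2
      rw [IntermediateField.adjoin.finrank hint]
      have hdvd : minpoly F Complex.I ∣ (X ^ 2 + 1 : F[X]) := by
        apply minpoly.dvd
        simp
      have hne : (X ^ 2 + 1 : F[X]) ≠ 0 := by
        have : (X ^ 2 + 1 : F[X]) = X ^ 2 + C 1 := by simp
        rw [this]
        exact (monic_X_pow_add_C (1 : F) (by norm_num)).ne_zero
      refine (natDegree_le_of_dvd hdvd hne).trans ?_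
      compute_degree
    have h2 := Module.finrank_mul_finrank F L ℂ
    have h3 := Module.finrank_mul_finrank F ℝ ℂ
    rw [hn, mul_one] at h2
    rw [Complex.finrank_real_complex] at h3
    have h4 : 0 < Module.finrank F ℝ := Module.finrank_pos
    have h5 : Module.finrank F ℝ = 1 := by omega
    rw [eq_top_iff]
    intro x _
    have h6 : (⊥ : Subalgebra F ℝ) = ⊤ := Subalgebra.bot_eq_top_iff_finrank_eq_one.2 h5
    have h7 : x ∈ (⊥ : Subalgebra F ℝ) := by rw [h6]; trivial
    obtain ⟨z, hz⟩ := Algebra.mem_bot.1 h7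
    rw [← hz]; exact z.2
  · exfalso
    obtain ⟨p, hp, hdvd⟩ := Nat.exists_prime_and_dvd hn
    have : Fact p.Prime := ⟨hp⟩
    have hcard : p ∣ Nat.card Gal(ℂ/L) := by
      rwa [IsGalois.card_aut_eq_finrank]
    obtain ⟨g, hg⟩ := exists_prime_orderOf_dvd_card' p hcard
    let H : Subgroup Gal(ℂ/L) := Subgroup.zpowers g
    let E : IntermediateField L ℂ := IntermediateField.fixedField H
    have hE : Module.finrank E ℂ = p := by
      rw [IntermediateField.finrank_fixedField_eq_card, Nat.card_zpowers, hg]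
    have hgalE : IsGalois E ℂ := IsGalois.tower_top_intermediateField E
    have hfinE : FiniteDimensional E ℂ := FiniteDimensional.right L E ℂ
    refine no_prime_degree hp hE (algebraMap L E ⟨Complex.I, hI⟩) ?_
    apply (algebraMap E ℂ).injective
    rw [map_pow, ← IsScalarTower.algebraMap_apply L E ℂ, map_neg, map_one]
    change Complex.I ^ 2 = -1
    exact Complex.I_sq

end MPc4bd3e
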