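import Mathlib

/-!
# Algebraic closure operator on sets of reals (helper lemmas for MP_c4bd3e_lc)
-/

open Set Polynomial

namespace MPc4bd3e

/-- Reals algebraic over the field generated by `S`. -/
noncomputable def cl (S : Set ℝ) : Set ℝ := (AlgebraicIndependent.matroid ℚ ℝ).closure S

theorem mem_cl {S : Set ℝ} {a : ℝ} : a ∈ cl S ↔ IsAlgebraic (Algebra.adjoin ℚ S) a := by
  unfold cl
  rw [AlgebraicIndependent.matroid_closure_eq, SetLike.mem_coe, Subalgebra.mem_algebraicClosure]

theorem subset_cl (S : Set ℝ) : S ⊆ cl S :=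
  (AlgebraicIndependent.matroid ℚ ℝ).subset_closure S (by simp)

theorem cl_mono {S T : Set ℝ} (h : S ⊆ T) : cl S ⊆ cl T :=
  (AlgebraicIndependent.matroid ℚ ℝ).closure_subset_closure h

theorem cl_cl (S : Set ℝ) : cl (cl S) = cl S :=
  (AlgebraicIndependent.matroid ℚ ℝ).closure_closure S

theorem cl_subset_of_subset_cl {S T : Set ℝ} (h : S ⊆ cl T) : cl S ⊆ cl T := by
  rw [← cl_cl T]
  exact cl_mono h

theorem cl_exchange {S : Set ℝ} {e f : ℝ} (he : e ∉ cl S) (hef : e ∈ cl (insert f S)) :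
    f ∈ cl (insert e S) :=
  (AlgebraicIndependent.matroid ℚ ℝ).mem_closure_insert he hef

theorem cl_finitary {S : Set ℝ} {a : ℝ} (h : a ∈ cl S) : ∃ T ⊆ S, T.Finite ∧ a ∈ cl T := by
  obtain ⟨I, h1, h2, -, h3⟩ :=
    (AlgebraicIndependent.matroid ℚ ℝ).exists_mem_finite_closure_of_mem_closure h
  exact ⟨I, h1, h2, h3⟩

/-- a point of the closure of a directed union is in the closure of a member -/
theorem cl_directed {ι : Type*} [Nonempty ι] (S : ι → Set ℝ) (hd : Directed (· ⊆ ·) S) {a : ℝ}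
    (h : a ∈ cl (⋃ i, S i)) : ∃ i, a ∈ cl (S i) := by
  obtain ⟨T, hT, hfin, ha⟩ := cl_finitary h
  obtain ⟨T', rfl⟩ := hfin.exists_finset_coe
  obtain ⟨i, hi⟩ := hd.exists_mem_subset_of_finset_subset_biUnion hT
  exact ⟨i, cl_mono hi ha⟩

theorem algebraMap_mem_cl (S : Set ℝ) (q : ℚ) : (q : ℝ) ∈ cl S := by
  rw [mem_cl]
  have := isAlgebraic_algebraMap (R := Algebra.adjoin ℚ S) (A := ℝ)
    (algebraMap ℚ (Algebra.adjoin ℚ S) q)
  simpa using this

/-- The relative algebraic closure as a subfield of `ℝ`. -/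
noncomputable def clF (S : Set ℝ) : Subfield ℝ where
  carrier := cl S
  mul_mem' {a b} ha hb := by
    rw [mem_cl] at *; exact ha.mul hb
  one_mem' := by simpa using algebraMap_mem_cl S 1
  add_mem' {a b} ha hb := by
    rw [mem_cl] at *; exact ha.add hb
  zero_mem' := by simpa using algebraMap_mem_cl S 0
  neg_mem' {a} ha := by
    rw [mem_cl] at *; exact ha.neg
  inv_mem' a ha := by
    rw [mem_cl] at *; exact ha.inv

theorem mem_clF {S : Set ℝ} {a : ℝ} : a ∈ clF S ↔ a ∈ cl S := Iff.rfl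

theorem coe_clF (S : Set ℝ) : (clF S : Set ℝ) = cl S := rfl

theorem closure_le_clF (S : Set ℝ) : Subfield.closure S ≤ clF S :=
  Subfield.closure_le.2 (subset_cl S)

theorem adjoin_subset_closure (S : Set ℝ) {a : ℝ} (h : a ∈ Algebra.adjoin ℚ S) :
    a ∈ Subfield.closure S := by
  induction h using Algebra.adjoin_induction with
  | mem x hx => exact Subfield.subset_closure hx
  | algebraMap r =>
    have : (algebraMap ℚ ℝ) r = algebraMap ℚ (Subfield.closure S) r := rfl
    rw [this]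
    exact (algebraMap ℚ (Subfield.closure S) r).2
  | add x y _ _ hx hy => exact add_mem hx hy
  | mul x y _ _ hx hy => exact mul_mem hx hy

theorem exists_poly {S : Set ℝ} {a : ℝ} (h : a ∈ cl S) :
    ∃ P : ℝ[X], P ≠ 0 ∧ (∀ n, P.coeff n ∈ Subfield.closure S) ∧ P.eval a = 0 := by
  rw [mem_cl] at h
  obtain ⟨p, hp, h0⟩ := h
  refine ⟨p.map (algebraMap _ ℝ), ?_, ?_, ?_⟩
  · rwa [Ne, Polynomial.map_eq_zero_iff]
    exact Subtype.val_injective
  · intro n
    rw [coeff_map]
    exact adjoin_subset_closure S (p.coeff n).2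
  · rw [eval_map_algebraMap]; exact h0

theorem mem_cl_of_root {S : Set ℝ} {a : ℝ} {P : ℝ[X]} (hP : P ≠ 0)
    (hc : ∀ n, P.coeff n ∈ cl S) (h0 : P.eval a = 0) : a ∈ cl S := by
  rw [mem_cl]
  let A := Subalgebra.algebraicClosure (Algebra.adjoin ℚ S) ℝ
  have hl : P ∈ Polynomial.lifts (algebraMap A ℝ) := by
    rw [Polynomial.lifts_iff_coeff_lifts]
    intro n
    exact ⟨⟨P.coeff n, mem_cl.1 (hc n)⟩, rfl⟩
  obtain ⟨Q, hQ⟩ := (Polynomial.mem_lifts _).1 hl
  have halg : IsAlgebraic A a := by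
    refine ⟨Q, ?_, ?_⟩
    · rintro rfl
      apply hP
      rw [← hQ, Polynomial.map_zero]
    · rw [← eval_map_algebraMap, hQ, h0]
  exact halg.restrictScalars (Algebra.adjoin ℚ S)

/-- lifting a polynomial to a subfield containing its coefficients -/
theorem lift_poly {K : Subfield ℝ} {P : ℝ[X]} (h : ∀ n, P.coeff n ∈ K) :
    ∃ Q : K[X], Q.map (algebraMap K ℝ) = P := by
  have hl : P ∈ Polynomial.lifts (algebraMap K ℝ) := by
    rw [Polynomial.lifts_iff_coeff_lifts]
    intro n
    exact ⟨⟨P.coeff n, h n⟩, rfl⟩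
  obtain ⟨Q, hQ⟩ := (Polynomial.mem_lifts _).1 hl
  exact ⟨Q, hQ⟩

theorem aeval_complex {K : Subfield ℝ} (Q : K[X]) (z : ℂ) :
    aeval z Q = ((Q.map (algebraMap K ℝ)).map (algebraMap ℝ ℂ)).eval z := by
  rw [Polynomial.map_map, ← IsScalarTower.algebraMap_eq, eval_map_algebraMap]

/-- adjoining an element transcendental over `S` does not add algebraic elements -/
theorem notMem_closure_insert {S : Set ℝ} {y t : ℝ} (hyS : y ∈ cl S)
    (hy : y ∉ Subfield.closure S) (ht : t ∉ cl S) : y ∉ Subfield.closure (insert t S) := by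
  intro h
  have hle : Subfield.closure (insert t S) ≤
      (IntermediateField.adjoin (Subfield.closure S) {t}).toSubfield := by
    rw [Subfield.closure_le]
    intro z hz
    rcases hz with rfl | hz
    · exact IntermediateField.mem_adjoin_simple_self _ _
    · exact (IntermediateField.adjoin (Subfield.closure S) {t}).algebraMap_mem
        ⟨z, Subfield.subset_closure hz⟩
  have h1 := hle h
  rw [IntermediateField.mem_toSubfield, IntermediateField.mem_adjoin_simple_iff] at h1
  obtain ⟨r, s, hrs⟩ := h1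
  by_cases hs : aeval t s = 0
  · rw [hs, div_zero] at hrs
    exact hy (hrs ▸ zero_mem _)
  have hrs' : y * aeval t s - aeval t r = 0 := by
    rw [hrs]; field_simp; ring
  let P : ℝ[X] := C y * s.map (algebraMap _ ℝ) - r.map (algebraMap _ ℝ)
  have hcoef : ∀ n, P.coeff n = y * (s.coeff n : ℝ) - (r.coeff n : ℝ) := by
    intro n
    simp only [P, coeff_sub, coeff_C_mul, coeff_map]
    rfl
  have hle' := closure_le_clF S
  have hP0 : P = 0 := by
    by_contra hP
    apply ht
    refine mem_cl_of_root hP ?_ ?_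
    · intro n
      rw [hcoef, ← mem_clF]
      exact sub_mem (mul_mem hyS (hle' (s.coeff n).2)) (hle' (r.coeff n).2)
    · simpa [P, eval_map_algebraMap] using hrs'
  have hs0 : s ≠ 0 := by
    rintro rfl
    exact hs (by simp)
  obtain ⟨n, hn⟩ : ∃ n, s.coeff n ≠ 0 := by
    by_contra hcon
    push Not at hcon
    exact hs0 (Polynomial.ext (by simpa using hcon))
  apply hy
  have h2 := hcoef n
  rw [hP0, coeff_zero] at h2
  have h3 : (s.coeff n : ℝ) ≠ 0 := by
    intro h; exact hn (Subtype.ext h)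
  have h4 : y = (r.coeff n : ℝ) / (s.coeff n : ℝ) := by
    field_simp; linarith
  rw [h4]
  exact div_mem (r.coeff n).2 (s.coeff n).2

/-- the conjugation argument -/
theorem mem_cl_insert_of_pair {F : Subfield ℝ} {S : Set ℝ} (hSF : S ⊆ F) {y s t f : ℝ}
    (hy : y ∈ cl S) (hyF : y ∉ F) (hs : s ∈ F) (ht : t ∈ F) (hfF : f ∈ F)
    (hf : f ∈ cl (insert (s + y * t) S)) (hf' : f ∉ cl S) : t ∈ cl (insert f S) := by
  by_cases ht0 : t = 0
  · rw [ht0, ← mem_clF]; exact zero_mem _
  have hT : insert f S ⊆ (F : Set ℝ) := insert_subset hfF hSF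
  have hx := cl_exchange hf' hf
  obtain ⟨P, hP0, hPc, hPx⟩ := exists_poly hx
  obtain ⟨R, hR0, hRc, hRy⟩ := exists_poly hy
  have hLF : Subfield.closure (insert f S) ≤ F := Subfield.closure_le.2 hT
  have hLF' : Subfield.closure S ≤ F := Subfield.closure_le.2 hSF
  have hLL : Subfield.closure S ≤ Subfield.closure (insert f S) :=
    Subfield.closure_mono (subset_insert _ _)
  obtain ⟨PF, hPF⟩ := lift_poly (fun n => hLF (hPc n))
  obtain ⟨RF, hRF⟩ := lift_poly (fun n => hLF' (hRc n))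
  obtain ⟨PL, hPL⟩ := lift_poly hPc
  obtain ⟨RL, hRL⟩ := lift_poly (fun n => hLL (hRc n))
  have hPF0 : PF ≠ 0 := by
    rintro rfl; exact hP0 (by rw [← hPF, Polynomial.map_zero])
  have hRF0 : RF ≠ 0 := by
    rintro rfl; exact hR0 (by rw [← hRF, Polynomial.map_zero])
  have hPL0 : PL ≠ 0 := by
    rintro rfl; exact hP0 (by rw [← hPL, Polynomial.map_zero])
  have hRL0 : RL ≠ 0 := by
    rintro rfl; exact hR0 (by rw [← hRL, Polynomial.map_zero])
  have hyalg : IsAlgebraic F y := ⟨RF, hRF0, by rw [← eval_map_algebraMap, hRF, hRy]⟩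
  have hyint : IsIntegral F y := hyalg.isIntegral
  set m := minpoly F y with hm
  have hdeg : 1 < m.natDegree := by
    have h1 : 0 < m.natDegree := minpoly.natDegree_pos hyint
    rcases Nat.lt_or_ge 1 m.natDegree with h2 | h2
    · exact h2
    · exfalso
      have h3 : (minpoly F y).natDegree = 1 := by
        rw [← hm]; omega
      rw [minpoly.natDegree_eq_one_iff] at h3
      obtain ⟨z, hz⟩ := h3
      exact hyF (hz ▸ z.2)
  have hirr : Irreducible m := minpoly.irreducible hyint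
  have hsep : m.Separable := hirr.separable
  have hcard : Fintype.card (m.rootSet ℂ) = m.natDegree :=
    Polynomial.card_rootSet_eq_natDegree hsep (IsAlgClosed.splits _)
  have hyroot : (y : ℂ) ∈ m.rootSet ℂ := by
    rw [Polynomial.mem_rootSet]
    refine ⟨hirr.ne_zero, ?_⟩
    have := minpoly.aeval F y
    have h2 := congrArg (algebraMap ℝ ℂ) this
    rw [← Polynomial.aeval_algebraMap_apply, map_zero] at h2
    exact h2
  obtain ⟨⟨y', hy'r⟩, hne⟩ := Fintype.exists_ne_of_one_lt_card (by rw [hcard]; exact hdeg)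
    (⟨(y : ℂ), hyroot⟩ : m.rootSet ℂ)
  have hne' : y' ≠ (y : ℂ) := fun h => hne (Subtype.ext h)
  have hy'0 : aeval y' m = 0 := (Polynomial.mem_rootSet.1 hy'r).2
  -- conjugate of `s + y t`
  have hPy' : aeval ((s : ℂ) + t * y') PF = 0 := by
    let Q : F[X] := PF.comp (C ⟨s, hs⟩ + C ⟨t, ht⟩ * X)
    have hQ : ∀ z : ℂ, aeval z Q = aeval ((s : ℂ) + t * z) PF := by
      intro z
      simp only [Q, Polynomial.aeval_comp]
      congr 1
      simp
      rfl
    have hQr : aeval y Q = 0 := by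
      have : aeval y Q = aeval (s + t * y) PF := by
        simp only [Q, Polynomial.aeval_comp]
        congr 1
        simp
        rfl
      rw [this, ← eval_map_algebraMap, hPF, mul_comm t y, hPx]
    have hdvd : m ∣ Q := minpoly.dvd F y hQr
    obtain ⟨W, hW⟩ := hdvd
    rw [← hQ, hW, map_mul, hy'0, zero_mul]
  have hRy' : aeval y' RF = 0 := by
    have hdvd : m ∣ RF := minpoly.dvd F y (by rw [← eval_map_algebraMap, hRF, hRy])
    obtain ⟨W, hW⟩ := hdvd
    rw [hW, map_mul, hy'0, zero_mul]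
  have a1 : IsAlgebraic (Subfield.closure (insert f S)) ((s : ℂ) + t * y') :=
    ⟨PL, hPL0, by rw [aeval_complex, hPL, ← hPF, ← aeval_complex, hPy']⟩
  have a2 : IsAlgebraic (Subfield.closure (insert f S)) y' :=
    ⟨RL, hRL0, by rw [aeval_complex, hRL, ← hRF, ← aeval_complex, hRy']⟩
  have a3 : IsAlgebraic (Subfield.closure (insert f S)) ((s : ℂ) + t * y) := by
    refine ⟨PL, hPL0, ?_⟩
    rw [aeval_complex, hPL]
    have : ((s : ℂ) + t * y) = algebraMap ℝ ℂ (s + y * t) := by
      push_cast [Complex.coe_algebraMap]; ring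
    rw [this, eval_map_algebraMap, aeval_algebraMap_apply, coe_aeval_eq_eval, hPx, map_zero]
  have a4 : IsAlgebraic (Subfield.closure (insert f S)) (y : ℂ) := by
    refine ⟨RL, hRL0, ?_⟩
    rw [aeval_complex, hRL]
    have : (y : ℂ) = algebraMap ℝ ℂ y := rfl
    rw [this, eval_map_algebraMap, aeval_algebraMap_apply, coe_aeval_eq_eval, hRy, map_zero]
  have a5 : IsAlgebraic (Subfield.closure (insert f S)) ((t : ℝ) : ℂ) := by
    have h1 : ((t : ℝ) : ℂ) = (((s : ℂ) + t * y) - ((s : ℂ) + t * y')) * ((y : ℂ) - y')⁻¹ := by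
      have : (y : ℂ) - y' ≠ 0 := sub_ne_zero.2 (Ne.symm hne')
      field_simp
      ring
    rw [h1]
    exact (a3.sub a1).mul (a4.sub a2).inv
  have a6 : IsAlgebraic (Subfield.closure (insert f S)) t :=
    (isAlgebraic_algebraMap_iff (algebraMap ℝ ℂ).injective).1 a5
  obtain ⟨p, hp0, hpt⟩ := a6
  refine mem_cl_of_root (P := p.map (algebraMap _ ℝ)) ?_ ?_ ?_
  · rwa [Ne, Polynomial.map_eq_zero]
  · intro n
    rw [coeff_map]
    exact closure_le_clF _ (p.coeff n).2
  · rw [eval_map_algebraMap, hpt]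

end MPc4bd3e
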