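import Pool.Agent.Work.MP_c4bd3e_lc.Local

/-!
# Bivariate polynomials over a subfield of `ℝ`
-/

open Set Polynomial
open scoped Polynomial.Bivariate

namespace MPc4bd3e

variable {L : Subfield ℝ}

/-- value of a bivariate polynomial: outer variable `f`, inner variable `t` -/
noncomputable def ev (P : L[X][X]) (f t : ℝ) : ℝ :=
  eval₂ (aeval t : L[X] →ₐ[L] ℝ).toRingHom f P

theorem ev_eq_sum (P : L[X][X]) (f t : ℝ) :
    ev P f t = ∑ i ∈ Finset.range (P.natDegree + 1), aeval t (P.coeff i) * f ^ i := by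
  unfold ev
  rw [eval₂_eq_sum_range]
  rfl

theorem continuous_ev (P : L[X][X]) : Continuous (fun p : ℝ × ℝ => ev P p.1 p.2) := by
  simp only [ev_eq_sum]
  refine continuous_finsetSum _ fun i _ => ?_
  exact ((Polynomial.continuous_aeval (P.coeff i)).comp continuous_snd).mul
    (continuous_fst.pow i)

theorem ev_add (P Q : L[X][X]) (f t : ℝ) : ev (P + Q) f t = ev P f t + ev Q f t := by
  unfold ev; rw [eval₂_add]

theorem ev_monomial (n m : ℕ) (r : L) (f t : ℝ) :
    ev (monomial n (monomial m r)) f t = (r : ℝ) * t ^ m * f ^ n := by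
  unfold ev
  rw [eval₂_monomial]
  change aeval t (monomial m r) * f ^ n = _
  rw [aeval_monomial]
  rfl

theorem ev_swap (P : L[X][X]) (f t : ℝ) : ev (Bivariate.swap P) f t = ev P t f := by
  induction P using Polynomial.induction_on' with
  | add p q hp hq => rw [map_add, ev_add, ev_add, hp, hq]
  | monomial n a =>
    induction a using Polynomial.induction_on' with
    | add p q hp hq => rw [map_add, map_add, ev_add, ev_add, hp, hq]
    | monomial m r =>
      rw [Bivariate.swap_monomial_monomial, ev_monomial, ev_monomial]; ring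

theorem hasDerivAt_ev (P : L[X][X]) (f t : ℝ) :
    HasDerivAt (fun f => ev P f t) (ev (derivative P) f t) f := by
  have h : ∀ (Q : L[X][X]) (f : ℝ),
      ev Q f t = (Q.map (aeval t : L[X] →ₐ[L] ℝ).toRingHom).eval f := by
    intro Q f
    unfold ev; rw [eval_map]
  rw [h, ← derivative_map]
  have := (P.map (aeval t : L[X] →ₐ[L] ℝ).toRingHom).hasDerivAt f
  refine this.congr_of_eventuallyEq (Filter.Eventually.of_forall fun x => h P x)

theorem coeff_coeff_swap (P : L[X][X]) (i j : ℕ) :
    ((Bivariate.swap P).coeff i).coeff j = (P.coeff j).coeff i := by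
  induction P using Polynomial.induction_on' with
  | add p q hp hq => simp [map_add, hp, hq]
  | monomial n a =>
    induction a using Polynomial.induction_on' with
    | add p q hp hq => simp only [map_add, coeff_add, hp, hq]
    | monomial m r =>
      rw [Bivariate.swap_monomial_monomial]
      simp only [coeff_monomial]
      by_cases h1 : m = i <;> by_cases h2 : n = j <;> simp [h1, h2, coeff_monomial]

theorem natDegree_swap_derivative_le (P : L[X][X]) :
    (Bivariate.swap (derivative P)).natDegree ≤ (Bivariate.swap P).natDegree := by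
  rw [natDegree_le_iff_coeff_eq_zero]
  intro N hN
  ext j
  rw [coeff_coeff_swap, coeff_derivative]
  have h : ((Bivariate.swap P).coeff N).coeff (j + 1) = 0 := by
    rw [coeff_eq_zero_of_natDegree_lt hN, coeff_zero]
  rw [coeff_coeff_swap] at h
  have h2 : ((j : L[X]) + 1) = C ((j : L) + 1) := by simp
  rw [h2, coeff_mul_C, h, zero_mul, coeff_zero]

/-- total size -/
noncomputable def size (P : L[X][X]) : ℕ := P.natDegree + (Bivariate.swap P).natDegree

theorem size_swap (P : L[X][X]) : size (Bivariate.swap P) = size P := by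
  unfold size; rw [Bivariate.swap_swap_apply]; ring

theorem size_derivative_lt {P : L[X][X]} (h : P.natDegree ≠ 0) :
    size (derivative P) < size P := by
  unfold size
  have h1 := natDegree_derivative_lt h
  have h2 := natDegree_swap_derivative_le P
  omega

theorem mem_cl_of_aeval {T : Set ℝ} {t : ℝ} {p : (Subfield.closure T)[X]} (hp : p ≠ 0)
    (h : aeval t p = 0) : t ∈ cl T := by
  refine mem_cl_of_root (P := p.map (algebraMap _ ℝ)) ?_ ?_ ?_
  · rwa [Ne, Polynomial.map_eq_zero]
  · intro n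
    rw [coeff_map]
    exact closure_le_clF _ (p.coeff n).2
  · rw [eval_map_algebraMap, h]

theorem ev_derivative_ne_zero {T : Set ℝ} {f t : ℝ} (ht : t ∉ cl T)
    {P : (Subfield.closure T)[X][X]} (hP : P ≠ 0) (h0 : ev P f t = 0)
    (hmin : ∀ Q : (Subfield.closure T)[X][X], Q ≠ 0 → ev Q f t = 0 → size P ≤ size Q) :
    ev (derivative P) f t ≠ 0 := by
  intro h
  have hdeg : P.natDegree ≠ 0 := by
    intro hd
    obtain ⟨p, rfl⟩ : ∃ p, P = C p := ⟨P.coeff 0, eq_C_of_natDegree_eq_zero hd⟩
    apply ht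
    refine mem_cl_of_aeval (p := p) (by rintro rfl; exact hP (by simp)) ?_
    unfold ev at h0
    rw [eval₂_C] at h0
    exact h0
  have hd0 : derivative P ≠ 0 := by
    intro hd
    exact hdeg (Polynomial.derivative_eq_zero.1 hd)
  have := hmin _ hd0 h
  have h2 := size_derivative_lt hdeg
  omega

theorem exists_biv {T : Set ℝ} {f t : ℝ} (hf : f ∈ cl (insert t T)) :
    ∃ P : (Subfield.closure T)[X][X], P ≠ 0 ∧ ev P f t = 0 := by
  rw [mem_cl] at hf
  obtain ⟨p, hp, h0⟩ := hf
  have hr : ∀ z ∈ Algebra.adjoin ℚ (insert t T),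
      ∃ r : (Subfield.closure T)[X], aeval t r = z := by
    intro z hz
    induction hz using Algebra.adjoin_induction with
    | mem x hx =>
      rcases hx with rfl | hx
      · exact ⟨X, aeval_X _⟩
      · exact ⟨C ⟨x, Subfield.subset_closure hx⟩, by rw [aeval_C]; rfl⟩
    | algebraMap r =>
      exact ⟨C (algebraMap ℚ (Subfield.closure T) r), by rw [aeval_C]; rfl⟩
    | add x y _ _ hx hy =>
      obtain ⟨r, rfl⟩ := hx
      obtain ⟨s, rfl⟩ := hy
      exact ⟨r + s, map_add _ _ _⟩
    | mul x y _ _ hx hy =>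
      obtain ⟨r, rfl⟩ := hx
      obtain ⟨s, rfl⟩ := hy
      exact ⟨r * s, map_mul _ _ _⟩
  choose r hr using fun n => hr _ (p.coeff n).2
  refine ⟨∑ n ∈ Finset.range (p.natDegree + 1), monomial n (r n), ?_, ?_⟩
  · intro hz
    have h1 : (∑ n ∈ Finset.range (p.natDegree + 1), monomial n (r n)).coeff p.natDegree
        = r p.natDegree := by
      rw [finsetSum_coeff, Finset.sum_eq_single p.natDegree]
      · rw [coeff_monomial, if_pos rfl]
      · intro b _ hb
        rw [coeff_monomial, if_neg hb]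
      · intro h; exact absurd (Finset.mem_range.2 (Nat.lt_succ_self _)) h
    rw [hz, coeff_zero] at h1
    have h2 := hr p.natDegree
    rw [← h1, map_zero] at h2
    apply hp
    rw [← leadingCoeff_eq_zero]
    exact Subtype.ext h2.symm
  · unfold ev
    rw [eval₂_finsetSum]
    simp only [eval₂_monomial]
    rw [aeval_eq_sum_range] at h0
    rw [← h0]
    apply Finset.sum_congr rfl
    intro n _
    have := hr n
    change aeval t (r n) * f ^ n = _
    rw [this]
    rfl

theorem exists_min_biv {T : Set ℝ} {f t : ℝ} (hf : f ∈ cl (insert t T)) (hfT : f ∉ cl T)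
    (ht : t ∉ cl T) :
    ∃ P : (Subfield.closure T)[X][X], ev P f t = 0 ∧ ev (derivative P) f t ≠ 0 ∧
      ev (derivative (Bivariate.swap P)) t f ≠ 0 := by
  classical
  have hex : ∃ n, ∃ P : (Subfield.closure T)[X][X], size P = n ∧ P ≠ 0 ∧ ev P f t = 0 := by
    obtain ⟨P, h1, h2⟩ := exists_biv hf
    exact ⟨size P, P, rfl, h1, h2⟩
  obtain ⟨P, hPs, hP, h0⟩ := Nat.find_spec hex
  have hmin : ∀ Q : (Subfield.closure T)[X][X], Q ≠ 0 → ev Q f t = 0 → size P ≤ size Q := by
    intro Q hQ hQ0
    rw [hPs]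
    exact Nat.find_min' hex ⟨Q, rfl, hQ, hQ0⟩
  refine ⟨P, h0, ev_derivative_ne_zero ht hP h0 hmin, ?_⟩
  refine ev_derivative_ne_zero hfT ?_ ?_ ?_
  · intro h
    exact hP ((map_eq_zero_iff _ Bivariate.swap.injective).1 h)
  · rw [ev_swap]; exact h0
  · intro Q hQ hQ0
    rw [size_swap, ← size_swap Q]
    apply hmin
    · intro h
      exact hQ ((map_eq_zero_iff _ Bivariate.swap.injective).1 h)
    · rw [ev_swap]; exact hQ0

/-- strict monotonicity from a nonvanishing derivative -/
theorem smono_of_deriv {φ φ' : ℝ → ℝ} {a b : ℝ} (h : ∀ x, HasDerivAt φ (φ' x) x)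
    (h0 : ∀ x ∈ Ioo a b, φ' x ≠ 0) : Smono φ (Ioo a b) := by
  have hc : ContinuousOn φ (Ioo a b) := fun x _ => (h x).continuousAt.continuousWithinAt
  have h1 := hasDerivWithinAt_forall_lt_or_forall_gt_of_forall_ne (convex_Ioo a b)
    (fun x _ => (h x).hasDerivWithinAt) h0
  rcases h1 with h1 | h1
  · right
    apply strictAntiOn_of_deriv_neg (convex_Ioo a b) hc
    intro x hx
    rw [interior_Ioo] at hx
    rw [(h x).deriv]
    exact h1 x hx
  · left
    apply strictMonoOn_of_deriv_pos (convex_Ioo a b) hc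
    intro x hx
    rw [interior_Ioo] at hx
    rw [(h x).deriv]
    exact h1 x hx

/-- a rational box around a point at which both partial derivatives do not vanish -/
theorem exists_box (P : L[X][X]) {f t : ℝ} (h1 : ev (derivative P) f t ≠ 0)
    (h2 : ev (derivative (Bivariate.swap P)) t f ≠ 0) :
    ∃ a b c d : ℚ, f ∈ Ioo (a : ℝ) b ∧ t ∈ Ioo (c : ℝ) d ∧
      (∀ t ∈ Ioo (c : ℝ) d, Smono (fun f => ev P f t) (Ioo (a : ℝ) b)) ∧
      (∀ f ∈ Ioo (a : ℝ) b, Smono (fun t => ev P f t) (Ioo (c : ℝ) d)) := by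
  have hO : IsOpen {p : ℝ × ℝ | ev (derivative P) p.1 p.2 ≠ 0 ∧
      ev (derivative (Bivariate.swap P)) p.2 p.1 ≠ 0} := by
    apply IsOpen.inter
    · exact isOpen_ne_fun (continuous_ev _) continuous_const
    · exact isOpen_ne_fun ((continuous_ev (derivative (Bivariate.swap P))).comp
        (Continuous.prodMk continuous_snd continuous_fst)) continuous_const
  obtain ⟨ε, hε, hball⟩ := Metric.isOpen_iff.1 hO (f, t) ⟨h1, h2⟩
  obtain ⟨a, ha1, ha2⟩ := exists_rat_btwn (show f - ε < f by linarith)
  obtain ⟨b, hb1, hb2⟩ := exists_rat_btwn (show f < f + ε by linarith)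
  obtain ⟨c, hc1, hc2⟩ := exists_rat_btwn (show t - ε < t by linarith)
  obtain ⟨d, hd1, hd2⟩ := exists_rat_btwn (show t < t + ε by linarith)
  have key : ∀ f' ∈ Ioo (a : ℝ) b, ∀ t' ∈ Ioo (c : ℝ) d, ev (derivative P) f' t' ≠ 0 ∧
      ev (derivative (Bivariate.swap P)) t' f' ≠ 0 := by
    intro f' hf' t' ht'
    have : ((f', t') : ℝ × ℝ) ∈ Metric.ball (f, t) ε := by
      rw [Metric.mem_ball, Prod.dist_eq, max_lt_iff]
      constructor
      · rw [Real.dist_eq, abs_lt]; constructor <;> simp only <;> linarith [hf'.1, hf'.2]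
      · rw [Real.dist_eq, abs_lt]; constructor <;> simp only <;> linarith [ht'.1, ht'.2]
    exact hball this
  refine ⟨a, b, c, d, ⟨ha2, hb1⟩, ⟨hc2, hd1⟩, ?_, ?_⟩
  · intro t' ht'
    exact smono_of_deriv (fun x => hasDerivAt_ev P x t') (fun x hx => (key x hx t' ht').1)
  · intro f' hf'
    have := smono_of_deriv (a := (c : ℝ)) (b := d)
      (fun x => hasDerivAt_ev (Bivariate.swap P) x f') (fun x hx => (key f' hf' x hx).2)
    simpa only [ev_swap] using this

end MPc4bd3e
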