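import Mathlib

/-!
# Analytic sets of reals of positive outer measure contain compact sets of positive measure
-/

open Set MeasureTheory

namespace MPc4bd3e

/-- the sequences bounded by `n` in the first `k` coordinates -/
def bnd (n : ℕ → ℕ) (k : ℕ) : Set (ℕ → ℕ) := {x | ∀ i < k, x i ≤ n i}

theorem exists_bnd_subset {n : ℕ → ℕ} {V : Set (ℕ → ℕ)} (hV : IsOpen V)
    (h : {x : ℕ → ℕ | ∀ i, x i ≤ n i} ⊆ V) : ∃ k, bnd n k ⊆ V := by
  by_contra hcon
  push Not at hcon
  have h1 : ∀ k, ∃ x ∈ bnd n k, x ∉ V := fun k => not_subset.1 (hcon k)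
  choose x hx hxV using h1
  -- the truncated sequences live in a compact set
  let K : Set (ℕ → ℕ) := Set.pi univ fun i => Set.Iic (n i)
  have hK : IsCompact K := isCompact_univ_pi fun i => (Set.finite_Iic (n i)).isCompact
  let z : ℕ → ℕ → ℕ := fun k i => min (x k i) (n i)
  have hz : ∀ k, z k ∈ K := by
    intro k i _
    exact Nat.min_le_right (x k i) (n i)
  obtain ⟨w, hw, φ, hφ, hlim⟩ := hK.tendsto_subseq hz
  have hwV : w ∈ V := h fun i => hw i (mem_univ i)
  -- `x (φ k)` converges to `w`, too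
  have hlim2 : Filter.Tendsto (fun k => x (φ k)) Filter.atTop (nhds w) := by
    rw [tendsto_pi_nhds] at hlim ⊢
    intro i
    refine (hlim i).congr' ?_
    filter_upwards [Filter.eventually_gt_atTop i] with k hk
    have h2 : i < φ k := hk.trans_le (hφ.id_le k)
    exact min_eq_left (hx (φ k) i h2)
  have h3 := hlim2.eventually (hV.mem_nhds hwV)
  obtain ⟨k, hk⟩ := h3.exists
  exact hxV _ hk

theorem exists_compact_of_analytic {A : Set ℝ} (hA : AnalyticSet A) (h : volume A ≠ 0) :
    ∃ K ⊆ A, IsCompact K ∧ volume K ≠ 0 := by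
  rw [AnalyticSet] at hA
  rcases hA with rfl | ⟨f, hf, rfl⟩
  · simp at h
  -- choose a positive finite lower bound
  obtain ⟨a, ha0, ha⟩ : ∃ a : ENNReal, 0 < a ∧ a < volume (range f) :=
    exists_between (pos_iff_ne_zero.2 h)
  -- the bounds
  have step : ∀ (k : ℕ) (B : Set (ℕ → ℕ)), a < volume (f '' B) →
      ∃ m, a < volume (f '' (B ∩ {x | x k ≤ m})) := by
    intro k B hB
    have h1 : f '' B = ⋃ m : ℕ, f '' (B ∩ {x | x k ≤ m}) := by
      rw [← image_iUnion, ← inter_iUnion]
      congr 1
      ext x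
      simp only [mem_inter_iff, mem_iUnion, mem_ofPred_eq]
      exact ⟨fun hx => ⟨hx, x k, le_rfl⟩, fun hx => hx.1⟩
    have hmono : Monotone fun m : ℕ => f '' (B ∩ {x | x k ≤ m}) := by
      intro m m' hm
      exact image_mono fun x hx => ⟨hx.1, le_trans hx.2 hm⟩
    rw [h1, hmono.measure_iUnion, lt_iSup_iff] at hB
    exact hB
  choose! g hg using step
  let nB : ℕ → Set (ℕ → ℕ) := fun k => Nat.rec (univ : Set (ℕ → ℕ))
    (fun j B => B ∩ {x | x j ≤ g j B}) k
  have hnB : ∀ k, a < volume (f '' nB k) := by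
    intro k
    induction k with
    | zero => simpa [nB] using ha
    | succ k ih => exact hg k (nB k) ih
  let n : ℕ → ℕ := fun k => g k (nB k)
  have hbnd : ∀ k, nB k = bnd n k := by
    intro k
    induction k with
    | zero =>
      ext x
      simp [nB, bnd]
    | succ k ih =>
      have : nB (k + 1) = nB k ∩ {x | x k ≤ n k} := rfl
      rw [this, ih]
      ext x
      simp only [bnd, mem_inter_iff, mem_ofPred_eq]
      constructor
      · rintro ⟨h1, h2⟩ i hi
        rcases Nat.lt_succ_iff_lt_or_eq.1 hi with h3 | rfl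
        · exact h1 i h3
        · exact h2
      · intro h1
        exact ⟨fun i hi => h1 i (by omega), h1 k (by omega)⟩
  let K : Set (ℕ → ℕ) := {x | ∀ i, x i ≤ n i}
  have hK : IsCompact K := by
    have : K = Set.pi univ fun i => Set.Iic (n i) := by
      ext x
      simp only [K, mem_ofPred_eq, Set.mem_pi, mem_univ, true_implies, mem_Iic]
    rw [this]
    exact isCompact_univ_pi fun i => (Set.finite_Iic (n i)).isCompact
  refine ⟨f '' K, image_subset_range _ _, hK.image hf, ?_⟩
  intro h0
  obtain ⟨U, hKU, hU, hUa⟩ := (f '' K).exists_isOpen_lt_of_lt a (by rw [h0]; exact ha0)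
  obtain ⟨k, hk⟩ := exists_bnd_subset (hU.preimage hf) (n := n) (image_subset_iff.1 hKU)
  have h1 := hnB k
  rw [hbnd] at h1
  have h2 : volume (f '' bnd n k) ≤ volume U := measure_mono (image_subset_iff.2 hk)
  exact absurd (h1.trans_le h2) (not_lt.2 hUa.le)

end MPc4bd3e
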