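import Pool.Agent.Work.MP_c4bd3e_lc.Rec

/-!
# Maximal subfields avoiding `y` inside a comeagre set, unless `ℝ` is covered by few meagre sets
-/

open Set Polynomial Cardinal

namespace MPc4bd3e

/-- the requirement on the generic point -/
def Gen (G A : Set ℝ) (x t : ℝ) : Prop :=
  t ∉ cl (insert x A) ∧ ∀ f ∈ cl (insert t (insert x A)), f ∉ cl (insert x A) → f ∈ G

open Classical in
/-- one step of the construction -/
noncomputable def stepG (G : Set ℝ) (y : ℝ) (A : Set ℝ) (x : ℝ) : Set ℝ :=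
  if h : x ∉ cl A ∧ ∃ t, Gen G A x t then {h.2.choose, x - y * h.2.choose} else ∅

theorem stepG_cases (G : Set ℝ) (y : ℝ) (A : Set ℝ) (x : ℝ) :
    stepG G y A x = ∅ ∨ ∃ t, x ∉ cl A ∧ Gen G A x t ∧ stepG G y A x = {t, x - y * t} := by
  unfold stepG
  split_ifs with h
  · right
    exact ⟨h.2.choose, h.1, h.2.choose_spec, rfl⟩
  · left; rfl

theorem mem_cl_of_sub_mul {B : Set ℝ} {x y t : ℝ} (hy : y ∈ cl B) (ht : t ∈ cl B)
    (hs : x - y * t ∈ cl B) : x ∈ cl B := by
  have h : (x - y * t) + y * t ∈ clF B := add_mem hs (mul_mem hy ht)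
  rwa [sub_add_cancel] at h

theorem avoid_stepG {G : Set ℝ} {y : ℝ} {A : Set ℝ} (x : ℝ) (hyA : y ∈ cl A)
    (hy : y ∉ Subfield.closure A) : y ∉ Subfield.closure (A ∪ stepG G y A x) := by
  rcases stepG_cases G y A x with h | ⟨t, hx, ht, h⟩
  · rwa [h, union_empty]
  · rw [h]
    have htA : t ∉ cl A := fun h => ht.1 (cl_mono (subset_insert _ _) h)
    have h1 := notMem_closure_insert hyA hy htA
    have hyA' : y ∈ cl (insert t A) := cl_mono (subset_insert _ _) hyA
    have hs : x - y * t ∉ cl (insert t A) := by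
      intro hs
      have hx' : x ∈ cl (insert t A) :=
        mem_cl_of_sub_mul hyA' (subset_cl _ (mem_insert _ _)) hs
      exact ht.1 (cl_exchange hx hx')
    have h2 := notMem_closure_insert hyA' h1 hs
    have : A ∪ {t, x - y * t} = insert (x - y * t) (insert t A) := by
      ext z; simp only [mem_union, mem_insert_iff, mem_singleton_iff]; tauto
    rwa [this]

theorem mk_cl_le (S : Set ℝ) : #(cl S) ≤ max #S ℵ₀ := by
  have h1 : #(Algebra.adjoin ℚ S) ≤ max #S ℵ₀ := by
    have h2 : (Algebra.adjoin ℚ S : Set ℝ) ⊆ (Subfield.closure S : Set ℝ) :=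
      fun a ha => adjoin_subset_closure S ha
    refine (mk_le_mk_of_subset h2).trans ?_
    exact Subfield.cardinalMk_closure_le_max S
  have h3 : #(Subalgebra.algebraicClosure (Algebra.adjoin ℚ S) ℝ) ≤ max #S ℵ₀ :=
    (Algebra.IsAlgebraic.cardinalMk_le_max (Algebra.adjoin ℚ S) _).trans
      (max_le h1 (le_max_right _ _))
  have h4 : cl S = (Subalgebra.algebraicClosure (Algebra.adjoin ℚ S) ℝ : Set ℝ) := by
    ext a; rw [mem_cl]; rfl
  rw [h4]
  exact h3

theorem exists_maximal_subset {κ : Cardinal.{0}} (hκ : ℵ₀ < κ) (hcov : NotCovered κ)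
    {G : Set ℝ} (hG : IsMeagre Gᶜ) {y : ℝ}
    {S0 : Set ℝ} (hS0 : S0.Countable) (hyS0 : y ∈ cl S0) (hy : y ∉ Subfield.closure S0)
    (hSG : cl S0 ⊆ G) (X : Set ℝ) (hX : #X ≤ κ) :
    ∃ E F : Subfield ℝ, insert y X ⊆ (E : Set ℝ) ∧ cl E ⊆ E ∧ #E ≤ max #X ℵ₀ ∧
      Maximal (fun K : Subfield ℝ => K ≤ E ∧ y ∉ K) F ∧ (F : Set ℝ) ⊆ G := by
  have hI1 : #(insert y X : Set ℝ) ≤ κ :=
    (mk_insert_le).trans ((add_le_add hX (one_lt_aleph0.le.trans hκ.le)).trans
      (add_eq_self hκ.le).le)
  have hI2 : #(insert y X : Set ℝ) ≤ max #X ℵ₀ :=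
    (mk_insert_le).trans ((add_le_max _ _).trans (max_le (max_le (le_max_left _ _)
      (one_lt_aleph0.le.trans (le_max_right _ _))) (le_max_right _ _)))
  obtain ⟨r, A, hr, hcard, hS0A, hmono, hcl, hyU, hdir, hUcard⟩ :=
    exists_tower hκ (insert y X : Set ℝ) hI1 S0 hS0 (fun A x => stepG G y A x)
    (by
      intro A x
      rcases stepG_cases G y A x with h | ⟨t, -, -, h⟩
      · rw [h]; exact countable_empty
      · rw [h]; exact (Set.toFinite _).countable)
    hy (fun B x hB _ hyB => avoid_stepG x (cl_mono hB hyS0) hyB)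
  set U : Set ℝ := ⋃ x : (insert y X : Set ℝ), (A x ∪ stepG G y (A x) x) with hU
  obtain ⟨F, hUF, hF⟩ := exists_maximal (closure_le_clF U) hyU
  have hDF : ∀ x, A x ∪ stepG G y (A x) x ⊆ F := fun x a ha =>
    hUF (Subfield.subset_closure (mem_iUnion_of_mem x ha))
  have hyF : y ∉ F := hF.1.2
  -- every `x ∈ X` is algebraic over its stage
  have hex : ∀ x : (insert y X : Set ℝ), (x : ℝ) ∈ cl (A x ∪ stepG G y (A x) x) := by
    intro x
    by_cases hx : (x : ℝ) ∈ cl (A x)
    · exact cl_mono subset_union_left hx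
    · have hc : #(insert (x : ℝ) (A x) : Set ℝ) < κ :=
        (mk_insert_le).trans_lt (add_lt_of_lt hκ.le (hcard x) (one_lt_aleph0.trans hκ))
      obtain ⟨t, ht⟩ := exists_generic hκ hcov hG hc
      have hstep : stepG G y (A x) x ≠ ∅ := by
        unfold stepG
        rw [dif_pos ⟨hx, t, ht⟩]
        exact (insert_nonempty _ _).ne_empty
      rcases stepG_cases G y (A x) x with h | ⟨t, -, -, h⟩
      · exact absurd h hstep
      · rw [h]
        exact mem_cl_of_sub_mul (cl_mono ((hS0A x).trans subset_union_left) hyS0)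
          (subset_cl _ (Or.inr (Or.inl rfl))) (subset_cl _ (Or.inr (Or.inr rfl)))
  refine ⟨clF U, F, ?_, (cl_cl U).subset, ?_, hF, ?_⟩
  · intro x hx
    exact cl_mono (subset_iUnion (fun x : (insert y X : Set ℝ) => A x ∪ stepG G y (A x) x)
      ⟨x, hx⟩) (hex ⟨x, hx⟩)
  · exact (mk_cl_le U).trans (max_le (hUcard.trans (max_le hI2 (le_max_right _ _)))
      (le_max_right _ _))
  intro f hf
  -- the first stage at which `f` is algebraic
  have wf : WellFounded r := hr.wf
  have hfU : f ∈ cl U := hF.1.1 hf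
  have hne : {x | f ∈ cl (A x ∪ stepG G y (A x) x)}.Nonempty := cl_directed _ hdir hfU
  obtain ⟨x, hx, hmin⟩ := wf.has_min {x | f ∈ cl (A x ∪ stepG G y (A x) x)} hne
  by_cases hfA : f ∈ cl (A x)
  · rcases hcl x f hfA with h | ⟨z, hz, h⟩
    · exact hSG h
    · exact absurd hz (hmin z h)
  · rcases stepG_cases G y (A x) x with h | ⟨t, hxA, ht, h⟩
    · rw [mem_ofPred_eq, h, union_empty] at hx
      exact absurd hx hfA
    · have htF : t ∈ F := hDF x (Or.inr (by rw [h]; exact Or.inl rfl))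
      have hsF : (x : ℝ) - y * t ∈ F := hDF x (Or.inr (by rw [h]; exact Or.inr rfl))
      have hyA : y ∈ cl (A x) := cl_mono (hS0A x) hyS0
      have hf1 : f ∈ cl (insert t (insert (x : ℝ) (A x))) := by
        refine cl_subset_of_subset_cl ?_ hx
        rw [h]
        apply union_subset
        · exact ((subset_insert _ _).trans (subset_insert _ _)).trans (subset_cl _)
        · have ht' : t ∈ cl (insert t (insert (x : ℝ) (A x))) := subset_cl _ (mem_insert _ _)
          rintro z (rfl | rfl)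
          · exact ht'
          · rw [← mem_clF]
            refine sub_mem (subset_cl _ (mem_insert_of_mem _ (mem_insert _ _)))
              (mul_mem (cl_mono ((subset_insert _ _).trans (subset_insert _ _)) hyA) ht')
      apply ht.2 f hf1
      intro hf2
      have hAF : A x ⊆ (F : Set ℝ) := subset_union_left.trans (hDF x)
      have hxeq : ((x : ℝ) - y * t) + y * t = x := by ring
      have h3 := mem_cl_insert_of_pair hAF hyA hyF hsF htF hf (by rw [hxeq]; exact hf2) hfA
      apply ht.1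
      refine cl_subset_of_subset_cl ?_ h3
      exact insert_subset hf2 ((subset_insert _ _).trans (subset_cl _))

end MPc4bd3e
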