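import Pool.Agent.Work.MP_c4bd3e_lc.Biv

/-!
# Generic points over small sets
-/

open Set Polynomial Cardinal

namespace MPc4bd3e

/-- `ℝ` is not a union of fewer than `κ` meagre sets. -/
def NotCovered (κ : Cardinal.{0}) : Prop :=
  ∀ (ι : Type) (B : ι → Set ℝ), #ι < κ → (∀ i, IsMeagre (B i)) → (⋃ i, B i) ≠ Set.univ

theorem isMeagre_of_finite {s : Set ℝ} (h : s.Finite) : IsMeagre s := by
  apply IsNowhereDense.isMeagre
  have h1 : Dense sᶜ := h.countable.dense_compl ℝ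
  unfold IsNowhereDense
  rw [h.isClosed.closure_eq]
  exact interior_eq_empty_iff_dense_compl.2 h1

/-- index type of the meagre sets to be avoided -/
abbrev Idx (L : Subfield ℝ) : Type := (L[X][X] × (ℚ × ℚ × ℚ × ℚ)) ⊕ L[X]

theorem mk_idx_lt {κ : Cardinal.{0}} (hκ : ℵ₀ < κ) {T : Set ℝ} (hT : #T < κ) :
    #(Idx (Subfield.closure T)) < κ := by
  have h1 : #(Subfield.closure T) < κ :=
    (Subfield.cardinalMk_closure_le_max T).trans_lt (max_lt hT hκ)
  have h2 : #((Subfield.closure T)[X]) < κ :=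
    (Polynomial.cardinalMk_le_max).trans_lt (max_lt h1 hκ)
  have h3 : #((Subfield.closure T)[X][X]) < κ :=
    (Polynomial.cardinalMk_le_max).trans_lt (max_lt h2 hκ)
  have h4 : #(ℚ × ℚ × ℚ × ℚ) ≤ ℵ₀ := mk_le_aleph0
  have h5 : #((Subfield.closure T)[X][X] × (ℚ × ℚ × ℚ × ℚ)) < κ := by
    rw [mk_prod, lift_id, lift_id]
    exact mul_lt_of_lt hκ.le h3 (h4.trans_lt hκ)
  rw [mk_sum, lift_id, lift_id]
  exact add_lt_of_lt hκ.le h5 h2

open Classical in
/-- the meagre sets to be avoided -/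
noncomputable def badFam (L : Subfield ℝ) (N : Set ℝ) : Idx L → Set ℝ :=
  Sum.elim (fun P => if IsMeagre (bad (ev P.1) N P.2.1 P.2.2.1 P.2.2.2.1 P.2.2.2.2)
      then bad (ev P.1) N P.2.1 P.2.2.1 P.2.2.2.1 P.2.2.2.2 else ∅)
    (fun p => if p = 0 then ∅ else {t | aeval t p = 0})

theorem isMeagre_badFam (L : Subfield ℝ) (N : Set ℝ) (i : Idx L) : IsMeagre (badFam L N i) := by
  rcases i with ⟨P, a, b, c, d⟩ | p
  · unfold badFam
    rw [Sum.elim_inl]
    split_ifs with h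
    · exact h
    · exact IsMeagre.empty
  · unfold badFam
    rw [Sum.elim_inr]
    split_ifs with h
    · exact IsMeagre.empty
    · apply isMeagre_of_finite
      have hp : p.map (algebraMap L ℝ) ≠ 0 := by rwa [Ne, Polynomial.map_eq_zero]
      refine (Multiset.finite_toSet (p.map (algebraMap L ℝ)).roots).subset ?_
      intro t ht
      rw [mem_ofPred_eq, mem_roots hp, IsRoot.def, eval_map_algebraMap]
      exact ht

theorem exists_generic {κ : Cardinal.{0}} (hκ : ℵ₀ < κ) (hcov : NotCovered κ) {G : Set ℝ}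
    (hG : IsMeagre Gᶜ) {T : Set ℝ} (hT : #T < κ) : ∃ t, t ∉ cl T ∧ ∀ f ∈ cl (insert t T), f ∉ cl T → f ∈ G := by
  have h := hcov (Idx (Subfield.closure T)) (badFam (Subfield.closure T) Gᶜ) (mk_idx_lt hκ hT)
    (isMeagre_badFam _ _)
  obtain ⟨t, ht⟩ := (ne_univ_iff_exists_notMem _).1 h
  rw [mem_iUnion, not_exists] at ht
  have htT : t ∉ cl T := by
    intro h
    obtain ⟨P, hP, hPc, hPt⟩ := exists_poly h
    obtain ⟨Q, hQ⟩ := lift_poly hPc
    have hQ0 : Q ≠ 0 := by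
      rintro rfl; exact hP (by rw [← hQ, Polynomial.map_zero])
    apply ht (Sum.inr Q)
    unfold badFam
    rw [Sum.elim_inr, if_neg hQ0]
    change aeval t Q = 0
    rw [← eval_map_algebraMap, hQ, hPt]
  refine ⟨t, htT, ?_⟩
  intro f hf hfT
  by_contra hfG
  obtain ⟨P, h0, h1, h2⟩ := exists_min_biv hf hfT htT
  obtain ⟨a, b, c, d, hfab, htcd, hm1, hm2⟩ := exists_box P h1 h2
  have hm := isMeagre_bad (continuous_ev P) hm1 hm2 hG
  apply ht (Sum.inl (P, a, b, c, d))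
  unfold badFam
  rw [Sum.elim_inl, if_pos hm]
  exact ⟨htcd, f, hfab, hfG, h0⟩

end MPc4bd3e
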