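import Pool.Agent.Work.MP_c4bd3e_lc.Alg

/-!
# Transfer of meagreness along a plane curve that is monotone in both coordinates
-/

open Set Polynomial

namespace MPc4bd3e

/-- parameters `t` of points `(f,t)` of the curve `g f t = 0` in a box with `f ∈ N` -/
def bad (g : ℝ → ℝ → ℝ) (N : Set ℝ) (a b c d : ℝ) : Set ℝ :=
  {t | t ∈ Ioo c d ∧ ∃ f ∈ Ioo a b, f ∈ N ∧ g f t = 0}

/-- strict monotonicity in one of the two senses -/
def Smono (φ : ℝ → ℝ) (I : Set ℝ) : Prop := StrictMonoOn φ I ∨ StrictAntiOn φ I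

theorem Smono.between {φ : ℝ → ℝ} {I : Set ℝ} (h : Smono φ I) {x y z : ℝ} (hx : x ∈ I)
    (hy : y ∈ I) (hz : z ∈ I) (hxy : x < y) (hneg : φ x * φ y < 0) (h0 : φ z = 0) :
    x < z ∧ z < y := by
  rcases h with h | h
  · have h1 := h hx hy hxy
    constructor
    · by_contra hcon
      push Not at hcon
      have h2 : φ z ≤ φ x := h.monotoneOn hz hx hcon
      rw [h0] at h2
      nlinarith
    · by_contra hcon
      push Not at hcon
      have h2 : φ y ≤ φ z := h.monotoneOn hy hz hcon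
      rw [h0] at h2
      nlinarith
  · have h1 := h hx hy hxy
    constructor
    · by_contra hcon
      push Not at hcon
      have h2 : φ x ≤ φ z := h.antitoneOn hz hx hcon
      rw [h0] at h2
      nlinarith
    · by_contra hcon
      push Not at hcon
      have h2 : φ z ≤ φ y := h.antitoneOn hy hz hcon
      rw [h0] at h2
      nlinarith

theorem Smono.neg_of_zero {φ : ℝ → ℝ} {I : Set ℝ} (h : Smono φ I) {x y z : ℝ} (hx : x ∈ I)
    (hy : y ∈ I) (hz : z ∈ I) (hxz : x < z) (hzy : z < y) (h0 : φ z = 0) :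
    φ x * φ y < 0 := by
  rcases h with h | h
  · have h1 := h hx hz hxz
    have h2 := h hz hy hzy
    rw [h0] at h1 h2
    exact mul_neg_of_neg_of_pos h1 h2
  · have h1 := h hx hz hxz
    have h2 := h hz hy hzy
    rw [h0] at h1 h2
    exact mul_neg_of_pos_of_neg h1 h2

theorem exists_zero_between {φ : ℝ → ℝ} (hc : Continuous φ) {x y : ℝ} (hxy : x < y)
    (hneg : φ x * φ y < 0) : ∃ z ∈ Ioo x y, φ z = 0 := by
  have hx0 : φ x ≠ 0 := by rintro h; rw [h] at hneg; simp at hneg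
  have hy0 : φ y ≠ 0 := by rintro h; rw [h] at hneg; simp at hneg
  rcases lt_or_gt_of_ne hx0 with hx | hx
  · have hy : 0 < φ y := by
      by_contra hcon; push Not at hcon; nlinarith
    obtain ⟨z, hz, h0⟩ := intermediate_value_Ioo hxy.le hc.continuousOn (show (0 : ℝ) ∈ Ioo (φ x) (φ y) from ⟨hx, hy⟩)
    exact ⟨z, hz, h0⟩
  · have hy : φ y < 0 := by
      by_contra hcon; push Not at hcon; nlinarith
    obtain ⟨z, hz, h0⟩ := intermediate_value_Ioo' hxy.le hc.continuousOn (show (0 : ℝ) ∈ Ioo (φ y) (φ x) from ⟨hy, hx⟩)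
    exact ⟨z, hz, h0⟩

theorem isNowhereDense_of {s : Set ℝ}
    (h : ∀ U : Set ℝ, IsOpen U → U.Nonempty → ∃ V ⊆ U, IsOpen V ∧ V.Nonempty ∧ Disjoint V s) :
    IsNowhereDense s := by
  unfold IsNowhereDense
  by_contra hne
  obtain ⟨V, hV, hVo, ⟨v, hv⟩, hd⟩ := h _ isOpen_interior (nonempty_iff_ne_empty.2 hne)
  have h1 : v ∈ closure s := interior_subset (hV hv)
  rw [mem_closure_iff] at h1
  obtain ⟨w, hw1, hw2⟩ := h1 V hVo hv
  exact Set.disjoint_left.1 hd hw1 hw2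

theorem IsNowhereDense.exists_disjoint {s : Set ℝ} (hs : IsNowhereDense s) {U : Set ℝ}
    (hU : IsOpen U) (hne : U.Nonempty) : ∃ V ⊆ U, IsOpen V ∧ V.Nonempty ∧ Disjoint V s := by
  refine ⟨U \ closure s, sdiff_subset, hU.sdiff isClosed_closure, ?_, ?_⟩
  · by_contra hcon
    rw [not_nonempty_iff_eq_empty, sdiff_eq_empty] at hcon
    have : U ⊆ interior (closure s) := interior_maximal hcon hU
    rw [hs] at this
    exact hne.ne_empty (subset_empty_iff.1 this)
  · rw [Set.disjoint_left]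
    exact fun x hx hxs => hx.2 (subset_closure hxs)

theorem isNowhereDense_bad {g : ℝ → ℝ → ℝ} (hg : Continuous (fun p : ℝ × ℝ => g p.1 p.2))
    {a b c d : ℝ} (h1 : ∀ t ∈ Ioo c d, Smono (fun f => g f t) (Ioo a b))
    (h2 : ∀ f ∈ Ioo a b, Smono (fun t => g f t) (Ioo c d))
    {N : Set ℝ} (hN : IsNowhereDense N) : IsNowhereDense (bad g N a b c d) := by
  apply isNowhereDense_of
  intro U hU hUne
  by_cases hdis : Disjoint U (bad g N a b c d)
  · exact ⟨U, Subset.rfl, hU, hUne, hdis⟩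
  rw [Set.not_disjoint_iff] at hdis
  obtain ⟨t₀, ht₀U, ht₀, f₀, hf₀, -, h0⟩ := hdis
  -- `t₀` in the open set `U ∩ (c,d)`
  have hW : IsOpen (U ∩ Ioo c d) := hU.inter isOpen_Ioo
  obtain ⟨ε, hε, hball⟩ := Metric.isOpen_iff.1 hW t₀ ⟨ht₀U, ht₀⟩
  have hm : t₀ - ε / 2 ∈ U ∩ Ioo c d := hball (by rw [Metric.mem_ball, Real.dist_eq]; rw [abs_lt]; constructor <;> linarith)
  have hp : t₀ + ε / 2 ∈ U ∩ Ioo c d := hball (by rw [Metric.mem_ball, Real.dist_eq]; rw [abs_lt]; constructor <;> linarith)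
  have hneg : g f₀ (t₀ - ε / 2) * g f₀ (t₀ + ε / 2) < 0 :=
    (h2 f₀ hf₀).neg_of_zero hm.2 hp.2 ht₀ (by linarith) (by linarith) h0
  -- open set of `f` with the same sign change
  have hO1 : IsOpen ({f | g f (t₀ - ε / 2) * g f (t₀ + ε / 2) < 0} ∩ Ioo a b) := by
    apply IsOpen.inter _ isOpen_Ioo
    apply isOpen_lt _ continuous_const
    exact (hg.comp (Continuous.prodMk continuous_id continuous_const)).mul
      (hg.comp (Continuous.prodMk continuous_id continuous_const))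
  obtain ⟨V, hVsub, hVo, ⟨f₁, hf₁⟩, hVd⟩ := IsNowhereDense.exists_disjoint hN hO1 ⟨f₀, hneg, hf₀⟩
  obtain ⟨t₁, ht₁, h01⟩ := exists_zero_between (φ := fun t => g f₁ t)
    (hg.comp (Continuous.prodMk continuous_const continuous_id))
    (show t₀ - ε / 2 < t₀ + ε / 2 by linarith) (hVsub hf₁).1
  have ht₁W : t₁ ∈ U ∩ Ioo c d := hball (by
    rw [Metric.mem_ball, Real.dist_eq, abs_lt]; constructor <;> linarith [ht₁.1, ht₁.2])
  obtain ⟨η, hη, hball'⟩ := Metric.isOpen_iff.1 hVo f₁ hf₁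
  have hVab : V ⊆ Ioo a b := fun x hx => (hVsub hx).2
  have hm' : f₁ - η / 2 ∈ V := hball' (by rw [Metric.mem_ball, Real.dist_eq]; rw [abs_lt]; constructor <;> linarith)
  have hp' : f₁ + η / 2 ∈ V := hball' (by rw [Metric.mem_ball, Real.dist_eq]; rw [abs_lt]; constructor <;> linarith)
  have hneg' : g (f₁ - η / 2) t₁ * g (f₁ + η / 2) t₁ < 0 :=
    (h1 t₁ ht₁W.2).neg_of_zero (φ := fun f => g f t₁) (hVab hm') (hVab hp') (hVab hf₁)
      (by linarith) (by linarith) h01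
  refine ⟨{t | g (f₁ - η / 2) t * g (f₁ + η / 2) t < 0} ∩ (U ∩ Ioo c d), ?_, ?_, ?_, ?_⟩
  · exact fun x hx => hx.2.1
  · apply IsOpen.inter _ hW
    apply isOpen_lt _ continuous_const
    exact (hg.comp (Continuous.prodMk continuous_const continuous_id)).mul
      (hg.comp (Continuous.prodMk continuous_const continuous_id))
  · exact ⟨t₁, hneg', ht₁W⟩
  · rw [Set.disjoint_left]
    rintro t ⟨ht, htU, htcd⟩ ⟨-, f, hf, hfN, hft⟩
    have hb := (h1 t htcd).between (φ := fun f => g f t) (hVab hm') (hVab hp') hf (by linarith) ht hft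
    have : f ∈ V := hball' (by
      rw [Metric.mem_ball, Real.dist_eq, abs_lt]; constructor <;> linarith [hb.1, hb.2])
    exact Set.disjoint_left.1 hVd this hfN

theorem isMeagre_bad {g : ℝ → ℝ → ℝ} (hg : Continuous (fun p : ℝ × ℝ => g p.1 p.2))
    {a b c d : ℝ} (h1 : ∀ t ∈ Ioo c d, Smono (fun f => g f t) (Ioo a b))
    (h2 : ∀ f ∈ Ioo a b, Smono (fun t => g f t) (Ioo c d))
    {N : Set ℝ} (hN : IsMeagre N) : IsMeagre (bad g N a b c d) := by
  obtain ⟨S, hS, hSc, hNS⟩ := isMeagre_iff_countable_union_isNowhereDense.1 hN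
  have hsub : bad g N a b c d ⊆ ⋃ s ∈ S, bad g s a b c d := by
    rintro t ⟨ht, f, hf, hfN, h0⟩
    obtain ⟨s, hs, hfs⟩ := hNS hfN
    exact mem_biUnion hs ⟨ht, f, hf, hfs, h0⟩
  apply IsMeagre.mono hsub
  apply isMeagre_biUnion hSc
  intro s hs
  exact (isNowhereDense_bad hg h1 h2 (hS s hs)).isMeagre

end MPc4bd3e
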