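import Pool.Agent.Work.MP_c4bd3e_lc.Gen

/-!
# Transfinite construction of small sets whose field avoids `y`
-/

open Set Polynomial Cardinal

namespace MPc4bd3e

theorem exists_wo (I : Type) : ∃ r : I → I → Prop, IsWellOrder I r ∧
    ∀ x, #{z // r z x} < #I := by
  obtain ⟨r, hr, h⟩ := Cardinal.exists_ord_eq I
  refine ⟨r, hr, fun x => ?_⟩
  have := Cardinal.card_typein_lt x h
  rw [Ordinal.card_typein] at this
  exact this

theorem notMem_closure_directed {ι : Type*} [Nonempty ι] (S : ι → Set ℝ)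
    (hd : Directed (· ⊆ ·) S) {y : ℝ} (h : ∀ i, y ∉ Subfield.closure (S i)) :
    y ∉ Subfield.closure (⋃ i, S i) := by
  rw [Subfield.closure_iUnion, Subfield.mem_iSup_of_directed]
  · rintro ⟨i, hi⟩
    exact h i hi
  · intro i j
    obtain ⟨k, h1, h2⟩ := hd i j
    exact ⟨k, Subfield.closure_mono h1, Subfield.closure_mono h2⟩

theorem exists_tower {κ : Cardinal.{0}} (hκ : ℵ₀ < κ) (I : Type) [Nonempty I] (hI : #I ≤ κ)
    (S0 : Set ℝ) (hS0 : S0.Countable) (step : Set ℝ → I → Set ℝ)
    (hstep : ∀ A x, (step A x).Countable) {y : ℝ} (hy : y ∉ Subfield.closure S0)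
    (havoid : ∀ A x, S0 ⊆ A → #A < κ → y ∉ Subfield.closure A →
      y ∉ Subfield.closure (A ∪ step A x)) :
    ∃ (r : I → I → Prop) (A : I → Set ℝ), IsWellOrder I r ∧ (∀ x, #(A x) < κ) ∧
      (∀ x, S0 ⊆ A x) ∧
      (∀ z x, r z x → A z ∪ step (A z) z ⊆ A x) ∧
      (∀ x, ∀ a ∈ cl (A x), a ∈ cl S0 ∨ ∃ z, r z x ∧ a ∈ cl (A z ∪ step (A z) z)) ∧
      y ∉ Subfield.closure (⋃ x, (A x ∪ step (A x) x)) ∧
      Directed (· ⊆ ·) (fun x => A x ∪ step (A x) x) ∧
      #(⋃ x, (A x ∪ step (A x) x) : Set ℝ) ≤ max #I ℵ₀ := by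
  obtain ⟨r, hr, hcard⟩ := exists_wo I
  have wf : WellFounded r := hr.wf
  -- the recursion
  let body : (x : I) → ((z : I) → r z x → Set ℝ) → Set ℝ :=
    fun x g => step (S0 ∪ ⋃ z, ⋃ h : r z x, g z h) x
  let Gf : I → Set ℝ := wf.fix body
  have hGf : ∀ x, Gf x = step (S0 ∪ ⋃ z, ⋃ _ : r z x, Gf z) x := fun x => wf.fix_eq body x
  let A : I → Set ℝ := fun x => S0 ∪ ⋃ z, ⋃ _ : r z x, Gf z
  have hGA : ∀ x, Gf x = step (A x) x := hGf
  have hmono : ∀ z x, r z x → A z ∪ step (A z) z ⊆ A x := by
    intro z x hzx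
    rw [← hGA]
    apply union_subset
    · apply union_subset subset_union_left
      intro a ha
      rw [mem_iUnion₂] at ha
      obtain ⟨w, hw, haw⟩ := ha
      right
      rw [mem_iUnion₂]
      exact ⟨w, trans_of r hw hzx, haw⟩
    · intro a ha
      right
      rw [mem_iUnion₂]
      exact ⟨z, hzx, ha⟩
  have hAcard : ∀ x, #(A x) < κ := by
    intro x
    have h1 : #(⋃ z : {z // r z x}, Gf z) < κ := by
      refine (mk_iUnion_le_sum_mk).trans_lt ?_
      refine (sum_le_mk_mul_iSup _).trans_lt ?_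
      refine mul_lt_of_lt hκ.le ((hcard x).trans_le hI) ?_
      refine lt_of_le_of_lt ?_ hκ
      apply ciSup_le'
      intro z
      rw [hGA]
      exact (hstep _ _).le_aleph0
    have h2 : A x = S0 ∪ ⋃ z : {z // r z x}, Gf z := by
      simp only [A]
      rw [iUnion_subtype]
    rw [h2]
    exact (mk_union_le _ _).trans_lt (add_lt_of_lt hκ.le (hS0.le_aleph0.trans_lt hκ) h1)
  have hS0A : ∀ x, S0 ⊆ A x := fun x => subset_union_left
  -- description of `A x` as a directed union
  have hAx : ∀ x, (A x = S0) ∨ (Nonempty {z // r z x} ∧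
      A x = ⋃ z : {z // r z x}, (A z ∪ step (A z) z)) := by
    intro x
    by_cases hne : Nonempty {z // r z x}
    · right
      refine ⟨hne, Subset.antisymm ?_ ?_⟩
      · apply union_subset
        · obtain ⟨z⟩ := hne
          exact (hS0A z).trans (subset_union_left.trans
            (subset_iUnion (fun z : {z // r z x} => A z ∪ step (A z) z) z))
        · apply iUnion₂_subset
          intro z hz
          rw [hGA]
          exact subset_union_right.trans
            (subset_iUnion (fun z : {z // r z x} => A z ∪ step (A z) z) ⟨z, hz⟩)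
      · apply iUnion_subset
        intro z
        exact hmono z x z.2
    · left
      simp only [A]
      rw [union_eq_left]
      apply iUnion₂_subset
      intro z hz
      exact absurd ⟨⟨z, hz⟩⟩ hne
  have htri : ∀ a b, r a b ∨ a = b ∨ r b a := fun a b => trichotomous_of r a b
  have hdir : ∀ x, Directed (· ⊆ ·) (fun z : {z // r z x} => A z ∪ step (A z) z) := by
    intro x z w
    rcases htri z w with h | h | h
    · exact ⟨w, (hmono _ _ h).trans subset_union_left, Subset.rfl⟩
    · have : z = w := Subtype.ext h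
      subst this
      exact ⟨z, Subset.rfl, Subset.rfl⟩
    · exact ⟨z, Subset.rfl, (hmono _ _ h).trans subset_union_left⟩
  have hdir' : Directed (· ⊆ ·) (fun z : I => A z ∪ step (A z) z) := by
    intro z w
    rcases htri z w with h | h | h
    · exact ⟨w, (hmono _ _ h).trans subset_union_left, Subset.rfl⟩
    · subst h
      exact ⟨z, Subset.rfl, Subset.rfl⟩
    · exact ⟨z, Subset.rfl, (hmono _ _ h).trans subset_union_left⟩
  refine ⟨r, A, hr, hAcard, hS0A, hmono, ?_, ?_, hdir', ?_⟩
  · intro x a ha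
    rcases hAx x with h | ⟨hne, h⟩
    · left; rwa [h] at ha
    · right
      rw [h] at ha
      obtain ⟨z, hz⟩ := cl_directed _ (hdir x) ha
      exact ⟨z, z.2, hz⟩
  · apply notMem_closure_directed _ hdir'
    intro x
    induction x using wf.induction with
    | _ x ih =>
      apply havoid _ _ (hS0A x) (hAcard x)
      rcases hAx x with h | ⟨hne, h⟩
      · rwa [h]
      · rw [h]
        apply notMem_closure_directed _ (hdir x)
        intro z
        exact ih z z.2
  · have h1 : (⋃ x, (A x ∪ step (A x) x)) ⊆ S0 ∪ ⋃ z, Gf z := by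
      apply iUnion_subset
      intro x
      apply union_subset
      · apply union_subset subset_union_left
        apply iUnion₂_subset
        intro z _
        exact (subset_iUnion Gf z).trans subset_union_right
      · rw [← hGA]
        exact (subset_iUnion Gf x).trans subset_union_right
    refine (mk_le_mk_of_subset h1).trans ((mk_union_le _ _).trans ?_)
    have h2 : #(⋃ z, Gf z) ≤ max #I ℵ₀ := by
      refine (mk_iUnion_le_sum_mk).trans ((sum_le_mk_mul_iSup _).trans ?_)
      have h3 : (⨆ z, #(Gf z)) ≤ ℵ₀ := by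
        apply ciSup_le'
        intro z
        rw [hGA]
        exact (hstep _ _).le_aleph0
      refine (mul_le_mul' le_rfl h3).trans ?_
      refine (mul_le_max _ _).trans ?_
      simp
    have h4 : #S0 ≤ max #I ℵ₀ := hS0.le_aleph0.trans (le_max_right _ _)
    refine (add_le_add h4 h2).trans ?_
    exact (add_le_max _ _).trans (by simp)

/-- Zorn's lemma: extension to a maximal subfield of `E` avoiding `y` -/
theorem exists_maximal {y : ℝ} {K E : Subfield ℝ} (hKE : K ≤ E) (h : y ∉ K) :
    ∃ F : Subfield ℝ, K ≤ F ∧ Maximal (fun K : Subfield ℝ => K ≤ E ∧ y ∉ K) F := by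
  obtain ⟨F, h1, h2⟩ := zorn_le_nonempty₀ {K : Subfield ℝ | K ≤ E ∧ y ∉ K} (by
    intro c hc hchain z hz
    refine ⟨sSup c, ⟨sSup_le fun w hw => (hc hw).1, ?_⟩, fun w hw => le_sSup hw⟩
    rw [Subfield.mem_sSup_of_directedOn ⟨z, hz⟩ hchain.directedOn]
    rintro ⟨s, hs, hys⟩
    exact (hc hs).2 hys) K ⟨hKE, h⟩
  exact ⟨F, h1, h2⟩

end MPc4bd3e
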