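import Pool.Agent.Work.MP_c4bd3e_lc.Start
import Pool.Agent.Work.MP_c4bd3e_lc.Nonmeas
import Pool.Agent.Work.MP_c4bd3e_lc.AS

/-!
# The structure of maximal subfields avoiding `y`
-/

open Set Polynomial Cardinal MeasureTheory IntermediateField

namespace MPc4bd3e

theorem mem_cl_coe {F : Subfield ℝ} {t : ℝ} : t ∈ cl (F : Set ℝ) ↔ IsAlgebraic F t := by
  constructor
  · intro h
    obtain ⟨P, hP, hc, h0⟩ := exists_poly h
    rw [Subfield.closure_eq] at hc
    obtain ⟨Q, hQ⟩ := lift_poly hc
    refine ⟨Q, ?_, ?_⟩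
    · rintro rfl
      apply hP
      rw [← hQ, Polynomial.map_zero]
    · rw [← eval_map_algebraMap, hQ, h0]
  · rintro ⟨p, hp, h0⟩
    refine mem_cl_of_root (P := p.map (algebraMap F ℝ)) ?_ ?_ ?_
    · rwa [Ne, Polynomial.map_eq_zero]
    · intro n
      rw [coeff_map]
      exact subset_cl _ (p.coeff n).2
    · rw [eval_map_algebraMap, h0]

theorem closure_insert_eq (F : Subfield ℝ) (x : ℝ) :
    Subfield.closure (insert x (F : Set ℝ)) = (F⟮x⟯).toSubfield := by
  apply le_antisymm
  · rw [Subfield.closure_le]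
    intro z hz
    rcases hz with rfl | hz
    · exact mem_adjoin_simple_self _ _
    · exact (F⟮x⟯).algebraMap_mem ⟨z, hz⟩
  · intro z hz
    rw [IntermediateField.mem_toSubfield, mem_adjoin_simple_iff] at hz
    obtain ⟨r, s, rfl⟩ := hz
    have key : ∀ p : F[X], aeval x p ∈ Subfield.closure (insert x (F : Set ℝ)) := by
      intro p
      rw [aeval_eq_sum_range]
      refine sum_mem fun i _ => ?_
      rw [Algebra.smul_def]
      exact mul_mem (Subfield.subset_closure (mem_insert_of_mem _ (p.coeff i).2))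
        (pow_mem (Subfield.subset_closure (mem_insert _ _)) _)
    exact div_mem (key r) (key s)

theorem notMem_adjoin_sq {F : Subfield ℝ} {y : ℝ} (hy : ¬ IsAlgebraic F y) :
    y ∉ F⟮y ^ 2⟯ := by
  intro h1
  rw [mem_adjoin_simple_iff] at h1
  obtain ⟨r, s, hrs⟩ := h1
  have hy0 : y ≠ 0 := by
    rintro rfl
    exact hy isAlgebraic_zero
  by_cases hs : aeval (y ^ 2) s = 0
  · rw [hs, div_zero] at hrs
    exact hy0 hrs
  let P : F[X] := X * expand F 2 s - expand F 2 r
  have hP : aeval y P = 0 := by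
    simp only [P, map_sub, map_mul, aeval_X, expand_aeval]
    have : y * aeval (y ^ 2) s = aeval (y ^ 2) r := by
      nth_rewrite 1 [hrs]; field_simp
    rw [this, sub_self]
  have hP0 : P = 0 := by
    by_contra hne
    exact hy ⟨P, hne, hP⟩
  have hs0 : s = 0 := by
    ext n
    have h2 : P.coeff (2 * n + 1) = s.coeff n := by
      simp only [P, coeff_sub]
      rw [coeff_X_mul, coeff_expand (by norm_num), coeff_expand (by norm_num)]
      rw [if_pos (Dvd.intro n rfl), if_neg (by omega), sub_zero]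
      congr 1
      omega
    rw [← h2, hP0]
    simp
  exact hs (by rw [hs0, map_zero])

variable {F : Subfield ℝ} {y : ℝ}

theorem Maximal.mem_ext (hF : Maximal (fun K : Subfield ℝ => y ∉ K) F) {x : ℝ} (hx : x ∉ F) :
    y ∈ Subfield.closure (insert x (F : Set ℝ)) := by
  by_contra h
  have hle : F ≤ Subfield.closure (insert x (F : Set ℝ)) := fun z hz =>
    Subfield.subset_closure (mem_insert_of_mem _ hz)
  exact hx (hF.2 h hle (Subfield.subset_closure (mem_insert _ _)))

/-- every real is algebraic over `F` -/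
theorem isAlgebraic_of_maximal (hF : Maximal (fun K : Subfield ℝ => y ∉ K) F) :
    Algebra.IsAlgebraic F ℝ := by
  refine ⟨fun t => ?_⟩
  by_contra ht
  have hyF : y ∉ F := hF.1
  by_cases hy : IsAlgebraic F y
  · have htF : t ∉ F := fun h => ht (isAlgebraic_algebraMap (⟨t, h⟩ : F))
    exact notMem_closure_insert (mem_cl_coe.2 hy) (by rwa [Subfield.closure_eq])
      (fun h => ht (mem_cl_coe.1 h)) (Maximal.mem_ext hF htF)
  · have hy2 : y ^ 2 ∉ F := by
      intro h
      apply hy
      exact IsAlgebraic.of_pow (by norm_num : 0 < 2) (isAlgebraic_algebraMap (⟨y ^ 2, h⟩ : F))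
    have h1 := Maximal.mem_ext hF hy2
    rw [closure_insert_eq] at h1
    exact notMem_adjoin_sq hy h1

/-- `F` is the set of reals fixed by an automorphism of `ℂ` -/
theorem exists_automorphism (hF : Maximal (fun K : Subfield ℝ => y ∉ K) F) :
    ∃ σ : ℂ ≃ₐ[F] ℂ, ∀ x : ℝ, σ x = x ↔ x ∈ F := by
  have h1 : Algebra.IsAlgebraic F ℝ := isAlgebraic_of_maximal hF
  have h2 : Algebra.IsAlgebraic F ℂ := Algebra.IsAlgebraic.trans F ℝ ℂ
  have hac : IsAlgClosure F ℂ := ⟨inferInstance, inferInstance⟩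
  have hgal : IsGalois F ℂ := IsGalois.mk
  have hyF : y ∉ F := hF.1
  have h3 : ∃ σ : ℂ ≃ₐ[F] ℂ, σ (y : ℂ) ≠ y := by
    by_contra hcon
    push Not at hcon
    have h4 := (InfiniteGalois.mem_bot_iff_fixed (k := F) (y : ℂ)).2 hcon
    rw [IntermediateField.mem_bot] at h4
    obtain ⟨z, hz⟩ := h4
    apply hyF
    have h5 : ((z : ℝ) : ℂ) = (y : ℂ) := hz
    rw [← Complex.ofReal_injective h5]
    exact z.2
  obtain ⟨σ, hσ⟩ := h3
  refine ⟨σ, fun x => ⟨fun hx => ?_, fun hx => ?_⟩⟩
  · let K : Subfield ℝ :=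
      { carrier := {x : ℝ | σ x = x}
        mul_mem' := by
          intro a b ha hb
          simp only [mem_ofPred_eq] at ha hb ⊢
          rw [Complex.ofReal_mul, map_mul, ha, hb]
        one_mem' := by simp
        add_mem' := by
          intro a b ha hb
          simp only [mem_ofPred_eq] at ha hb ⊢
          rw [Complex.ofReal_add, map_add, ha, hb]
        zero_mem' := by simp
        neg_mem' := by
          intro a ha
          simp only [mem_ofPred_eq] at ha ⊢
          rw [Complex.ofReal_neg, map_neg, ha]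
        inv_mem' := by
          intro a ha
          simp only [mem_ofPred_eq] at ha ⊢
          rw [Complex.ofReal_inv, map_inv₀, ha] }
    have hFK : F ≤ K := by
      intro a ha
      exact σ.commutes (⟨a, ha⟩ : F)
    exact hF.2 (show y ∉ K from hσ) hFK hx
  · exact σ.commutes (⟨x, hx⟩ : F)

/-- the data of the action of `σ` and of the complex conjugation on a finite set which contains
`x` -/
def Code (σ : ℂ ≃+* ℂ) (n : ℕ) (f g : Fin n → Fin n) (k : Fin n) (x : ℝ) : Prop :=
  ∃ e : Fin n → ℂ, Function.Injective e ∧ (∀ i, (starRingEnd ℂ) (e i) = e (f i)) ∧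
    (∀ i, σ (e i) = e (g i)) ∧ e k = x

theorem interp_fixed {n : ℕ} (τ : ℂ ≃+* ℂ) {h : Fin n → Fin n} {e e' : Fin n → ℂ}
    (he : Function.Injective e) (h1 : ∀ i, τ (e i) = e (h i)) (h2 : ∀ i, τ (e' i) = e' (h i)) :
    (Lagrange.interpolate Finset.univ e e').map (τ : ℂ →+* ℂ) =
      Lagrange.interpolate Finset.univ e e' := by
  classical
  set L := Lagrange.interpolate Finset.univ e e' with hL
  have hdeg : L.degree < (Finset.univ : Finset (Fin n)).card :=
    Lagrange.degree_interpolate_lt _ (fun i _ j _ hij => he hij)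
  have heval : ∀ i, L.eval (e i) = e' i := fun i =>
    Lagrange.eval_interpolate_at_node _ (fun i _ j _ hij => he hij) (Finset.mem_univ i)
  have hinj : Function.Injective h := by
    intro i j hij
    apply he
    apply τ.injective
    rw [h1, h1, hij]
  refine Polynomial.eq_of_degrees_lt_of_eval_index_eq (v := e ∘ h) Finset.univ ?_ ?_ hdeg ?_
  · intro i _ j _ hij
    exact hinj (he hij)
  · exact (degree_map_le).trans_lt hdeg
  · intro i _
    rw [Function.comp_apply, heval, ← h1, ← h2, ← heval]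
    rw [Polynomial.eval_map]
    exact Polynomial.eval₂_hom (τ : ℂ →+* ℂ) (e i)

/-- the code of `x` determines the field `F(x)` -/
theorem mem_of_code {σ : ℂ ≃+* ℂ} (hσ : ∀ x : ℝ, σ x = x ↔ x ∈ F) {n : ℕ}
    {f g : Fin n → Fin n} {k : Fin n} {x x' : ℝ} (hx : Code σ n f g k x)
    (hx' : Code σ n f g k x') : x' ∈ Subfield.closure (insert x (F : Set ℝ)) := by
  classical
  obtain ⟨e, he, h1, h2, h3⟩ := hx
  obtain ⟨e', he', h1', h2', h3'⟩ := hx'
  set L := Lagrange.interpolate Finset.univ e e' with hL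
  have hc : L.map (starRingAut (R := ℂ) : ℂ →+* ℂ) = L :=
    interp_fixed (starRingAut (R := ℂ)) he h1 h1'
  have hs : L.map (σ : ℂ →+* ℂ) = L := interp_fixed σ he h2 h2'
  have hreal : ∀ m, ∃ r ∈ F, L.coeff m = ((r : ℝ) : ℂ) := by
    intro m
    have h4 : (starRingEnd ℂ) (L.coeff m) = L.coeff m := by
      conv_rhs => rw [← hc]
      rw [coeff_map]
      rfl
    obtain ⟨r, hr⟩ := Complex.conj_eq_iff_real.1 h4
    refine ⟨r, ?_, hr⟩
    rw [← hσ, ← hr]
    conv_rhs => rw [← hs]
    rw [coeff_map]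
    rfl
  choose r hrF hr using hreal
  have heval : L.eval (e k) = e' k :=
    Lagrange.eval_interpolate_at_node _ (fun i _ j _ hij => he hij) (Finset.mem_univ k)
  rw [h3, h3', eval_eq_sum_range] at heval
  have h5 : x' = ∑ i ∈ Finset.range (L.natDegree + 1), r i * x ^ i := by
    apply Complex.ofReal_injective
    rw [← heval, Complex.ofReal_sum]
    refine Finset.sum_congr rfl fun i _ => ?_
    rw [hr, Complex.ofReal_mul, Complex.ofReal_pow]
  rw [h5]
  refine sum_mem fun i _ => ?_
  exact mul_mem (Subfield.subset_closure (mem_insert_of_mem _ (hrF i)))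
    (pow_mem (Subfield.subset_closure (mem_insert _ _)) _)

theorem exists_code (σ : ℂ ≃ₐ[F] ℂ) {x : ℝ} (hx : IsAlgebraic F x) :
    ∃ (n : ℕ) (f g : Fin n → Fin n) (k : Fin n), Code (σ : ℂ ≃+* ℂ) n f g k x := by
  classical
  obtain ⟨p, hp, h0⟩ := hx
  -- the roots of `p` in `ℂ`
  let S : Finset ℂ := p.rootSet_finite ℂ |>.toFinset
  have hS : ∀ z, z ∈ S ↔ aeval z p = 0 := by
    intro z
    simp only [S, Set.Finite.mem_toFinset, mem_rootSet]
    exact ⟨fun h => h.2, fun h => ⟨hp, h⟩⟩
  have hxS : (x : ℂ) ∈ S := by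
    rw [hS]
    have : aeval ((algebraMap ℝ ℂ) x) p = algebraMap ℝ ℂ (aeval x p) :=
      aeval_algebraMap_apply ℂ x p
    rw [h0, map_zero] at this
    exact this
  have hσS : ∀ z ∈ S, σ z ∈ S := by
    intro z hz
    rw [hS] at hz ⊢
    have : aeval (σ z) p = σ (aeval z p) := aeval_algHom_apply σ.toAlgHom z p
    rw [this, hz, map_zero]
  have hcS : ∀ z ∈ S, (starRingEnd ℂ) z ∈ S := by
    intro z hz
    rw [hS] at hz ⊢
    have h1 : aeval ((starRingEnd ℂ) z) p = (starRingEnd ℂ) (aeval z p) := by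
      rw [aeval_def, aeval_def, hom_eval₂]
      congr 1
      ext a
      show ((a : ℝ) : ℂ) = (starRingEnd ℂ) ((a : ℝ) : ℂ)
      rw [Complex.conj_ofReal]
    rw [h1, hz, map_zero]
  let E := S.equivFin
  refine ⟨S.card, fun i => E ⟨_, hcS _ (E.symm i).2⟩, fun i => E ⟨_, hσS _ (E.symm i).2⟩,
    E ⟨_, hxS⟩, fun i => (E.symm i : ℂ), ?_, ?_, ?_, ?_⟩
  · intro i j hij
    exact E.symm.injective (Subtype.ext hij)
  · intro i
    simp
  · intro i
    simp
  · simp

end MPc4bd3e
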